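import Pool.Agent.H460.EC.Cond

/-! The constant `c0` is an area. -/

set_option autoImplicit false

namespace Pool.Agent.H460.EC

open Filter Topology MeasureTheory

theorem c0_area : (volume {p : ℝ × ℝ | |4 * p.1 ^ 3 - 27 * p.2 ^ 2| ≤ 1}).toReal = c0 := by
  set α : ℝ := 12 / (432 : ℝ) ^ ((1 : ℝ) / 3) with hα
  set β : ℝ := 108 / (432 : ℝ) ^ ((1 : ℝ) / 2) with hβ
  have hα0 : 0 < α := by positivity
  have hβ0 : 0 < β := by positivity
  have hα3 : α ^ 3 = 4 := by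
    rw [hα, div_pow, ← Real.rpow_natCast ((432 : ℝ) ^ ((1 : ℝ) / 3)), ← Real.rpow_mul (by norm_num)]
    norm_num
  have hβ2 : β ^ 2 = 27 := by
    rw [hβ, div_pow, ← Real.rpow_natCast ((432 : ℝ) ^ ((1 : ℝ) / 2)), ← Real.rpow_mul (by norm_num)]
    norm_num
  let L : (ℝ × ℝ) →ₗ[ℝ] (ℝ × ℝ) := LinearMap.prodMap (α • LinearMap.id) (β • LinearMap.id)
  have hdet : LinearMap.det L = α * β := by
    simp only [L]
    rw [LinearMap.det_prodMap, LinearMap.det_smul, LinearMap.det_smul]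
    simp
  have hpre : {p : ℝ × ℝ | |4 * p.1 ^ 3 - 27 * p.2 ^ 2| ≤ 1} =
      L ⁻¹' {p : ℝ × ℝ | |p.2 ^ 2 - p.1 ^ 3| ≤ 1} := by
    ext p
    simp only [Set.mem_preimage, Set.mem_ofPred_eq, L, LinearMap.prodMap_apply,
      LinearMap.smul_apply, LinearMap.id_apply, smul_eq_mul]
    rw [mul_pow, mul_pow, hα3, hβ2, abs_sub_comm]
  have hne : LinearMap.det L ≠ 0 := by
    rw [hdet]
    positivity
  rw [hpre, Measure.addHaar_preimage_linearMap volume hne, ENNReal.toReal_mul, MP.area_eq, hdet,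
    ENNReal.toReal_ofReal (abs_nonneg _), abs_of_pos (by positivity)]
  unfold c0
  have h56 : (432 : ℝ) ^ ((5 : ℝ) / 6) = (432 : ℝ) ^ ((1 : ℝ) / 3) * (432 : ℝ) ^ ((1 : ℝ) / 2) := by
    rw [← Real.rpow_add (by norm_num)]
    norm_num
  rw [hα, hβ, h56]
  have h1 : 0 < (432 : ℝ) ^ ((1 : ℝ) / 3) := by positivity
  have h2 : 0 < (432 : ℝ) ^ ((1 : ℝ) / 2) := by positivity
  field_simp
  ring

end Pool.Agent.H460.EC
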