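import Pool.Agent.H460.MP.HallPts
import Pool.Graph.R_pool_sql_team_seeded_620a6dc7.H828_AC.Upper

/-! Short models with bounded discriminant: residue classes. -/

set_option autoImplicit false

namespace Pool.Agent.H460.EC

open Filter Topology
open Pool.Agent.H828_AC (D)

/-- the pairs with `|a| ≤ A`, `0 < |D| ≤ Y` and the property `Q` -/
def Fam (Q : ℤ → ℤ → Prop) (Y A : ℝ) : Set (ℤ × ℤ) :=
  {z | |(z.1 : ℝ)| ≤ A ∧ D z.1 z.2 ≠ 0 ∧ |(D z.1 z.2 : ℝ)| ≤ Y ∧ Q z.1 z.2}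

/-- the map to the integral points -/
def fm (z : ℤ × ℤ) : ℤ × ℤ := (12 * z.1, 108 * z.2)

theorem fm_inj : Function.Injective fm := by
  rintro ⟨a, b⟩ ⟨a', b'⟩ h
  simp only [fm, Prod.mk.injEq] at h
  have h1 : a = a' := by omega
  have h2 : b = b' := by omega
  rw [h1, h2]

theorem fm_eq (z : ℤ × ℤ) : (fm z).2 ^ 2 - (fm z).1 ^ 3 = -432 * D z.1 z.2 := by
  unfold fm D
  ring

theorem fm_eqR (z : ℤ × ℤ) : |((fm z).2 : ℝ) ^ 2 - ((fm z).1 : ℝ) ^ 3| = 432 * |(D z.1 z.2 : ℝ)| := by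
  have h : ((fm z).2 : ℝ) ^ 2 - ((fm z).1 : ℝ) ^ 3 = -432 * (D z.1 z.2 : ℝ) := by
    exact_mod_cast fm_eq z
  rw [h, abs_mul]
  norm_num

theorem fam_finite (Q : ℤ → ℤ → Prop) (Y A : ℝ) : (Fam Q Y A).Finite := by
  refine Set.Finite.of_finite_image (f := fm) ?_ fm_inj.injOn
  refine (MP.pts_finite (432 * Y) (12 * A) 0 1 0 1).subset ?_
  rintro _ ⟨z, ⟨h1, h2, h3, _⟩, rfl⟩
  refine ⟨by simpa using Int.modEq_one, by simpa using Int.modEq_one, ?_, ?_, ?_⟩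
  · have : |(((fm z).1 : ℤ) : ℝ)| = 12 * |(z.1 : ℝ)| := by
      unfold fm
      push_cast
      rw [abs_mul]
      norm_num
    rw [this]
    linarith
  · intro h
    have h4 := fm_eq z
    rw [h, sub_self] at h4
    exact h2 (by omega)
  · rw [fm_eqR]
    linarith

theorem class_image (M : ℕ) (r s : ℤ) (Y A : ℝ) :
    fm '' Fam (fun x y => (M : ℤ) ∣ x - r ∧ (M : ℤ) ∣ y - s) Y A =
      MP.pts (432 * Y) (12 * A) (12 * r) (12 * M) (108 * s) (108 * M) := by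
  have ha : ∀ z : ℤ × ℤ, |(((fm z).1 : ℤ) : ℝ)| = 12 * |(z.1 : ℝ)| := by
    intro z
    unfold fm
    push_cast
    rw [abs_mul]
    norm_num
  ext p
  constructor
  · rintro ⟨z, ⟨h1, h2, h3, h4, h5⟩, rfl⟩
    refine ⟨?_, ?_, ?_, ?_, ?_⟩
    · refine (Int.modEq_iff_dvd.2 ?_).symm
      have : (fm z).1 - 12 * r = 12 * (z.1 - r) := by unfold fm; ring
      rw [this]
      exact mul_dvd_mul_left _ h4
    · refine (Int.modEq_iff_dvd.2 ?_).symm
      have : (fm z).2 - 108 * s = 108 * (z.2 - s) := by unfold fm; ring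
      rw [this]
      exact mul_dvd_mul_left _ h5
    · rw [ha]
      linarith
    · intro h
      have h4 := fm_eq z
      rw [h, sub_self] at h4
      exact h2 (by omega)
    · rw [fm_eqR]
      linarith
  · rintro ⟨h1, h2, h3, h4, h5⟩
    obtain ⟨u, hu⟩ := Int.modEq_iff_dvd.1 h1.symm
    obtain ⟨v, hv⟩ := Int.modEq_iff_dvd.1 h2.symm
    have hz : fm (r + M * u, s + M * v) = p := by
      unfold fm
      ext
      · simp only
        linear_combination -hu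
      · simp only
        linear_combination -hv
    refine ⟨(r + M * u, s + M * v), ⟨?_, ?_, ?_, ?_, ?_⟩, hz⟩
    · have := ha (r + M * u, s + M * v)
      rw [hz] at this
      linarith
    · intro h
      have h6 := fm_eq (r + M * u, s + M * v)
      rw [hz, h, mul_zero] at h6
      exact h4 (by linarith)
    · have := fm_eqR (r + M * u, s + M * v)
      rw [hz] at this
      linarith
    · simp only
      exact ⟨u, by ring⟩
    · simp only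
      exact ⟨v, by ring⟩

theorem class_ncard (M : ℕ) (r s : ℤ) (Y A : ℝ) :
    (Fam (fun x y => (M : ℤ) ∣ x - r ∧ (M : ℤ) ∣ y - s) Y A).ncard =
      (MP.pts (432 * Y) (12 * A) (12 * r) (12 * M) (108 * s) (108 * M)).ncard := by
  rw [← class_image, Set.ncard_image_of_injective _ fm_inj]

/-- the constant: the area of `|4x³ - 27y²| ≤ 1` -/
noncomputable def c0 : ℝ := MP.c * (432 : ℝ) ^ ((5 : ℝ) / 6) / 1296

theorem c0_pos : 0 < c0 := by
  have := MP.c_ge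
  unfold c0
  have : 0 < MP.c := by linarith
  positivity

def DD (Q : ℤ → ℤ → Prop) (d : ℝ) : Prop :=
  ∀ θ A : ℝ, 1 / 3 < θ → θ < 8 / 3 → 0 < A →
    Tendsto (fun Y : ℝ => ((Fam Q Y (A * Y ^ θ)).ncard : ℝ) / Y ^ ((5 : ℝ) / 6)) atTop
      (𝓝 (c0 * d))

theorem fam_mono {Q Q' : ℤ → ℤ → Prop} {Y Y' A A' : ℝ} (hY : Y ≤ Y') (hA : A ≤ A')
    (hQ : ∀ x y, D x y ≠ 0 → Q x y → Q' x y) : Fam Q Y A ⊆ Fam Q' Y' A' := by
  rintro z ⟨h1, h2, h3, h4⟩
  exact ⟨h1.trans hA, h2, h3.trans hY, hQ _ _ h2 h4⟩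

theorem fam_ncard_mono {Q Q' : ℤ → ℤ → Prop} {Y Y' A A' : ℝ} (hY : Y ≤ Y') (hA : A ≤ A')
    (hQ : ∀ x y, D x y ≠ 0 → Q x y → Q' x y) :
    ((Fam Q Y A).ncard : ℝ) ≤ (Fam Q' Y' A').ncard := by
  exact_mod_cast Set.ncard_le_ncard (fam_mono hY hA hQ) (fam_finite _ _ _)

/-- it suffices to know one constant `A` for every `θ` -/
theorem DD_of (Q : ℤ → ℤ → Prop) (d : ℝ) (A0 : ℝ → ℝ) (hA0 : ∀ θ, 0 < A0 θ)
    (h : ∀ θ : ℝ, 1 / 3 < θ → θ < 8 / 3 →
    Tendsto (fun Y : ℝ => ((Fam Q Y (A0 θ * Y ^ θ)).ncard : ℝ) / Y ^ ((5 : ℝ) / 6)) atTop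
      (𝓝 (c0 * d))) : DD Q d := by
  intro θ A h1 h2 hA
  set θ1 := (1 / 3 + θ) / 2 with hθ1
  set θ2 := (θ + 8 / 3) / 2 with hθ2
  have L1 := h θ1 (by rw [hθ1]; linarith) (by rw [hθ1]; linarith)
  have L2 := h θ2 (by rw [hθ2]; linarith) (by rw [hθ2]; linarith)
  have ev1 : ∀ᶠ Y : ℝ in atTop, A0 θ1 / A ≤ Y ^ (θ - θ1) :=
    (tendsto_rpow_atTop (by rw [hθ1]; linarith : 0 < θ - θ1)).eventually_ge_atTop _
  have ev2 : ∀ᶠ Y : ℝ in atTop, A / A0 θ2 ≤ Y ^ (θ2 - θ) :=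
    (tendsto_rpow_atTop (by rw [hθ2]; linarith : 0 < θ2 - θ)).eventually_ge_atTop _
  refine tendsto_of_tendsto_of_tendsto_of_le_of_le' L1 L2 ?_ ?_
  · filter_upwards [ev1, eventually_ge_atTop 1] with Y hY1 hY
    have hY0 : 0 < Y := by linarith
    refine div_le_div_of_nonneg_right ?_ (Real.rpow_nonneg hY0.le _)
    refine fam_ncard_mono le_rfl ?_ fun _ _ _ h => h
    have e : Y ^ θ = Y ^ (θ - θ1) * Y ^ θ1 := by rw [← Real.rpow_add hY0]; congr 1; ring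
    rw [e, ← mul_assoc]
    refine mul_le_mul_of_nonneg_right ?_ (Real.rpow_nonneg hY0.le _)
    rwa [div_le_iff₀ hA, mul_comm] at hY1
  · filter_upwards [ev2, eventually_ge_atTop 1] with Y hY1 hY
    have hY0 : 0 < Y := by linarith
    refine div_le_div_of_nonneg_right ?_ (Real.rpow_nonneg hY0.le _)
    refine fam_ncard_mono le_rfl ?_ fun _ _ _ h => h
    have e : Y ^ θ2 = Y ^ (θ2 - θ) * Y ^ θ := by rw [← Real.rpow_add hY0]; congr 1; ring
    rw [e, ← mul_assoc]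
    refine mul_le_mul_of_nonneg_right ?_ (Real.rpow_nonneg hY0.le _)
    rwa [div_le_iff₀ (hA0 θ2), mul_comm] at hY1

theorem lim_pts' (θ : ℝ) (h1 : 1 / 3 < θ) (h2 : θ < 8 / 3) (a m b n : ℤ) (hm : 0 < m)
    (hn : 0 < n) :
    Tendsto (fun K : ℝ => ((MP.pts K (K ^ θ) a m b n).ncard : ℝ) / K ^ ((5 : ℝ) / 6)) atTop
      (𝓝 (MP.c / (m * n))) := by
  refine MP.lim_aux θ h1 h2 _ (MP.c / (m * n)) (7 / 9) (by norm_num) ?_
  intro eps he
  obtain ⟨C, hC, h⟩ := MP.asymp eps he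
  refine ⟨C, hC, ?_⟩
  intro K X hK hX hXe
  have := h K X hK hX a m b n hm hn
  rw [hXe] at this ⊢
  rw [div_mul_eq_mul_div]
  exact this

/-- residue classes -/
theorem class_DD (M : ℕ) (hM : 0 < M) (r s : ℤ) :
    DD (fun x y => (M : ℤ) ∣ x - r ∧ (M : ℤ) ∣ y - s) (1 / (M : ℝ) ^ 2) := by
  have hM' : (0 : ℝ) < M := by exact_mod_cast hM
  refine DD_of _ _ (fun θ => (432 : ℝ) ^ θ / 12) (fun θ => by positivity) ?_
  intro θ h1 h2
  have L := lim_pts' θ h1 h2 (12 * r) (12 * M) (108 * s) (108 * M) (by positivity)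
    (by positivity)
  have L2 : Tendsto (fun Y : ℝ => 432 * Y) atTop atTop :=
    tendsto_id.const_mul_atTop (by norm_num)
  have L3 := (L.comp L2).mul_const ((432 : ℝ) ^ ((5 : ℝ) / 6))
  have e1 : MP.c / (((12 * M : ℤ) : ℝ) * ((108 * M : ℤ) : ℝ)) * (432 : ℝ) ^ ((5 : ℝ) / 6)
      = c0 * (1 / (M : ℝ) ^ 2) := by
    unfold c0
    push_cast
    field_simp
    ring
  rw [e1] at L3
  refine L3.congr' ?_
  filter_upwards [eventually_gt_atTop 0] with Y hY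
  have h432 : (0 : ℝ) < (432 : ℝ) ^ ((5 : ℝ) / 6) := by positivity
  have hYp : 0 < Y ^ ((5 : ℝ) / 6) := Real.rpow_pos_of_pos hY _
  simp only [Function.comp]
  rw [class_ncard]
  have e2 : 12 * ((432 : ℝ) ^ θ / 12 * Y ^ θ) = (432 * Y) ^ θ := by
    rw [Real.mul_rpow (by norm_num) hY.le]
    ring
  have e3 : (432 * Y) ^ ((5 : ℝ) / 6) = (432 : ℝ) ^ ((5 : ℝ) / 6) * Y ^ ((5 : ℝ) / 6) :=
    Real.mul_rpow (by norm_num) hY.le
  rw [e2, e3]
  field_simp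

end Pool.Agent.H460.EC
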