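import Pool.Agent.H460.EC.Law

/-! Ordering by conductor. -/

set_option autoImplicit false

namespace Pool.Agent.H460.EC

open Filter Topology
open Pool.Agent.H828_AC (D HasDens Ht Qs N6 D6 N6_pos N6_dvd D6_dvd Z10 Z10_pos)

theorem e_zero : e 0 = 0 := by simp [e]

theorem e_one_pos : 0 < e 1 := by
  have h2 : 0 < ae 2 0 := by
    have h1 := Pool.Agent.H828_AC.dens_mono (Pool.Agent.H828_AC.lamq_dens Nat.prime_two 1)
      (Pool.Agent.H828_AC.dens_AA Nat.prime_two 0 1) fun x y h => by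
        refine ⟨by simp, ?_⟩
        have h3 := h.1
        unfold D at h3
        norm_num at h3 ⊢
        have h4 : (2 : ℤ) ∣ 27 * y ^ 2 := by
          have h5 : (2 : ℤ) ∣ 4 * x ^ 3 := ⟨2 * x ^ 3, by ring⟩
          have h6 := dvd_sub h5 h3
          have : 4 * x ^ 3 - (4 * x ^ 3 - 27 * y ^ 2) = 27 * y ^ 2 := by ring
          rwa [this] at h6
        rcases Int.prime_two.dvd_mul.1 h4 with h5 | h5
        · norm_num at h5
        · exact Int.prime_two.dvd_of_dvd_pow h5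
    unfold ae
    rw [al_zero Nat.prime_two]
    unfold Pool.Agent.H828_AC.al
    norm_num at h1 ⊢
    rw [div_lt_one (by norm_num)]
    linarith
  have h3 : 0 < ae 3 0 := by
    have h1 := Pool.Agent.H828_AC.dens_mono (Pool.Agent.H828_AC.lamq_dens Nat.prime_three 1)
      (Pool.Agent.H828_AC.dens_AA Nat.prime_three 1 0) fun x y h => by
        refine ⟨?_, by simp⟩
        have h3 := h.1
        unfold D at h3
        norm_num at h3 ⊢
        have h4 : (3 : ℤ) ∣ 4 * x ^ 3 := by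
          have h5 : (3 : ℤ) ∣ 27 * y ^ 2 := ⟨9 * y ^ 2, by ring⟩
          have h6 := dvd_add h3 h5
          have : 4 * x ^ 3 - 27 * y ^ 2 + 27 * y ^ 2 = 4 * x ^ 3 := by ring
          rwa [this] at h6
        rcases Int.prime_three.dvd_mul.1 h4 with h5 | h5
        · norm_num at h5
        · exact Int.prime_three.dvd_of_dvd_pow h5
    unfold ae
    rw [al_zero Nat.prime_three]
    unfold Pool.Agent.H828_AC.al
    norm_num at h1 ⊢
    rw [div_lt_one (by norm_num)]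
    linarith
  have h4 : e 1 = ae 2 0 * ae 3 0 * Pool.Agent.H828_AC.law 1 := by
    have := e_gi (i := 0) (j := 0) (w := 1) (by norm_num) one_ne_zero
    simpa using this
  rw [h4]
  have h5 : 0 < Pool.Agent.H828_AC.law 1 := by
    unfold Pool.Agent.H828_AC.law
    rw [Pool.Agent.H828_AC.ga_one, mul_one]
    exact Pool.Agent.H828_AC.C1_pos
  positivity

/-- the curves with `N₆ ≤ Z`, `|D| ≤ N₆ ^ (1 + δ)`, `H ≤ N₆ ^ κ` and the property `R` -/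
def CF (R : ℤ → ℤ → Prop) (δ κ Z : ℝ) : Set (ℤ × ℤ) :=
  {z | Qs z.1 z.2 ∧ |(D z.1 z.2 : ℝ)| ≤ (N6 z.1 z.2 : ℝ) ^ (1 + δ) ∧ (N6 z.1 z.2 : ℝ) ≤ Z ∧
    Ht z.1 z.2 ≤ (N6 z.1 z.2 : ℝ) ^ κ ∧ R z.1 z.2}

def CFt (R : ℤ → ℤ → Prop) (δ κ Z : ℝ) (t : ℕ) : Set (ℤ × ℤ) :=
  {z | z ∈ CF R δ κ Z ∧ T t z.1 z.2}

theorem absD (a b : ℤ) : |(D a b : ℝ)| = ((D a b).natAbs : ℝ) := by
  rw [Nat.cast_natAbs, Int.cast_abs]

theorem T_D {t : ℕ} {a b : ℤ} (h : T t a b) : |(D a b : ℝ)| = t * N6 a b := by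
  rw [absD, h.2]
  push_cast
  rfl

theorem exists_T {a b : ℤ} (h : Qs a b) : ∃ t : ℕ, t ≠ 0 ∧ T t a b := by
  obtain ⟨t, ht⟩ := (N6_dvd h.1).trans (D6_dvd h.1)
  refine ⟨t, ?_, h, by rw [ht, mul_comm]⟩
  rintro rfl
  rw [mul_zero] at ht
  exact (Int.natAbs_ne_zero.2 h.1) ht

theorem T_unique {t t' : ℕ} {a b : ℤ} (h : T t a b) (h' : T t' a b) : t = t' := by
  have h1 : t * N6 a b = t' * N6 a b := h.2.symm.trans h'.2
  exact Nat.eq_of_mul_eq_mul_right (N6_pos a b) h1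

theorem N6_ge_one (a b : ℤ) : (1 : ℝ) ≤ N6 a b := by exact_mod_cast N6_pos a b

section

variable {R : ℤ → ℤ → Prop} {δ κ Z : ℝ}


theorem CFt_bound {t : ℕ} {z : ℤ × ℤ} (hz : z ∈ CFt R δ κ Z t) :
    (t : ℝ) ≤ (N6 z.1 z.2 : ℝ) ^ δ := by
  obtain ⟨⟨h1, h2, h3, h4, h5⟩, h6⟩ := hz
  have hN := N6_ge_one z.1 z.2
  have hN0 : (0 : ℝ) < N6 z.1 z.2 := by linarith
  rw [T_D h6, Real.rpow_add hN0, Real.rpow_one, mul_comm (t : ℝ)] at h2
  exact le_of_mul_le_mul_left h2 hN0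

theorem CFt_sub_HH {t : ℕ} (ht : t ≠ 0) :
    CFt R δ κ Z t ⊆ HHset (fun x y => T t x y ∧ R x y) κ ((t : ℝ) ^ (-κ)) (t * Z) := by
  rintro z ⟨⟨h1, h2, h3, h4, h5⟩, h6⟩
  have ht0 : (0 : ℝ) < t := by exact_mod_cast Nat.pos_of_ne_zero ht
  have hN := N6_ge_one z.1 z.2
  refine ⟨h1.1, ?_, ?_, h6, h5⟩
  · rw [T_D h6]
    exact mul_le_mul_of_nonneg_left h3 ht0.le
  · rw [T_D h6, Real.mul_rpow ht0.le (by linarith), ← mul_assoc, ← Real.rpow_add ht0,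
      neg_add_cancel, Real.rpow_zero, one_mul]
    exact h4

theorem HH_sub_CFt {t : ℕ} (ht : t ≠ 0) (hδ : 0 < δ) :
    HHset (fun x y => T t x y ∧ R x y) κ ((t : ℝ) ^ (-κ)) (t * Z) ⊆ CFt R δ κ Z t ∪
      HHset (fun x y => T t x y ∧ R x y) κ ((t : ℝ) ^ (-κ)) (t * (t : ℝ) ^ (1 / δ)) := by
  rintro z ⟨h1, h2, h3, h6, h5⟩
  have ht0 : (0 : ℝ) < t := by exact_mod_cast Nat.pos_of_ne_zero ht
  have hN := N6_ge_one z.1 z.2
  have hN0 : (0 : ℝ) < N6 z.1 z.2 := by linarith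
  rcases le_or_gt |(D z.1 z.2 : ℝ)| (t * (t : ℝ) ^ (1 / δ)) with h | h
  · exact Or.inr ⟨h1, h, h3, h6, h5⟩
  · left
    rw [T_D h6] at h h2 h3
    have h7 : (t : ℝ) ^ (1 / δ) < N6 z.1 z.2 := lt_of_mul_lt_mul_left h ht0.le
    have h8 : (t : ℝ) ≤ (N6 z.1 z.2 : ℝ) ^ δ := by
      have h9 := Real.rpow_le_rpow (by positivity) h7.le hδ.le
      rw [← Real.rpow_mul ht0.le] at h9
      have : 1 / δ * δ = 1 := by field_simp
      rwa [this, Real.rpow_one] at h9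
    refine ⟨⟨h6.1, ?_, le_of_mul_le_mul_left h2 ht0, ?_, h5⟩, h6⟩
    · rw [T_D h6, Real.rpow_add hN0, Real.rpow_one, mul_comm (t : ℝ)]
      exact mul_le_mul_of_nonneg_left h8 hN0.le
    · rwa [Real.mul_rpow ht0.le (by linarith), ← mul_assoc, ← Real.rpow_add ht0,
        neg_add_cancel, Real.rpow_zero, one_mul] at h3

end

theorem CFt_finite (R : ℤ → ℤ → Prop) {δ κ Z : ℝ} (hκ : 0 < κ) (hZ : 0 ≤ Z) {t : ℕ} (ht : t ≠ 0) :
    (CFt R δ κ Z t).Finite := by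
  have ht0 : (0 : ℝ) < t := by exact_mod_cast Nat.pos_of_ne_zero ht
  exact (HH_finite _ hκ (by positivity) (by positivity)).subset (CFt_sub_HH ht)

theorem CFt_lim {R : ℤ → ℤ → Prop} {δ κ d : ℝ} (hδ : 0 < δ) (hκ1 : 1 < κ) (hκ2 : κ < 8) {t : ℕ}
    (ht : t ≠ 0) (hR : DD (fun x y => T t x y ∧ R x y) d) :
    Tendsto (fun Z : ℝ => ((CFt R δ κ Z t).ncard : ℝ) / Z ^ ((5 : ℝ) / 6)) atTop
      (𝓝 (c0 * d * (t : ℝ) ^ ((5 : ℝ) / 6))) := by
  have ht0 : (0 : ℝ) < t := by exact_mod_cast Nat.pos_of_ne_zero ht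
  have L0 := HH_lim hR hκ1 hκ2 (show 0 < (t : ℝ) ^ (-κ) by positivity)
  have L1 : Tendsto (fun Z : ℝ => (t : ℝ) * Z) atTop atTop := tendsto_id.const_mul_atTop ht0
  have L2 := (L0.comp L1).mul_const ((t : ℝ) ^ ((5 : ℝ) / 6))
  have L3 : Tendsto (fun Z : ℝ => ((HHset (fun x y => T t x y ∧ R x y) κ ((t : ℝ) ^ (-κ))
      (t * Z)).ncard : ℝ) / Z ^ ((5 : ℝ) / 6)) atTop (𝓝 (c0 * d * (t : ℝ) ^ ((5 : ℝ) / 6))) := by
    refine L2.congr' ?_
    filter_upwards [eventually_gt_atTop 0] with Z hZ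
    have hp : 0 < Z ^ ((5 : ℝ) / 6) := Real.rpow_pos_of_pos hZ _
    have hp2 : 0 < (t : ℝ) ^ ((5 : ℝ) / 6) := Real.rpow_pos_of_pos ht0 _
    have e1 : (t * Z) ^ ((5 : ℝ) / 6) = (t : ℝ) ^ ((5 : ℝ) / 6) * Z ^ ((5 : ℝ) / 6) :=
      Real.mul_rpow ht0.le hZ.le
    simp only [Function.comp]
    rw [e1]
    field_simp
  have L4 : Tendsto (fun Z : ℝ => ((HHset (fun x y => T t x y ∧ R x y) κ ((t : ℝ) ^ (-κ))
      (t * (t : ℝ) ^ (1 / δ))).ncard : ℝ) / Z ^ ((5 : ℝ) / 6)) atTop (𝓝 0) :=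
    (tendsto_rpow_atTop (by norm_num : (0 : ℝ) < 5 / 6)).const_div_atTop _
  have L5 := L3.sub L4
  rw [sub_zero] at L5
  refine tendsto_of_tendsto_of_tendsto_of_le_of_le' L5 L3 ?_ ?_
  · filter_upwards [eventually_gt_atTop 0] with Z hZ
    have hp : 0 < Z ^ ((5 : ℝ) / 6) := Real.rpow_pos_of_pos hZ _
    rw [← sub_div]
    refine div_le_div_of_nonneg_right ?_ hp.le
    have h1 := (Set.ncard_le_ncard (HH_sub_CFt (R := R) (κ := κ) (Z := Z) ht hδ)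
      ((CFt_finite R (by linarith) hZ.le ht).union (HH_finite _ (by linarith) (by positivity)
        (by positivity)))).trans (Set.ncard_union_le _ _)
    have h2 := (Nat.cast_le (α := ℝ)).2 h1
    push_cast at h2
    linarith
  · filter_upwards [eventually_gt_atTop 0] with Z hZ
    have hp : 0 < Z ^ ((5 : ℝ) / 6) := Real.rpow_pos_of_pos hZ _
    refine div_le_div_of_nonneg_right ?_ hp.le
    exact_mod_cast Set.ncard_le_ncard (CFt_sub_HH ht)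
      (HH_finite _ (by linarith) (by positivity) (by positivity))

theorem CFt_le {κ : ℝ} (hκ1 : 1 < κ) (hκ2 : κ < 8) : ∃ δ1 C Z0 : ℝ, 0 < δ1 ∧ 0 < C ∧ 1 ≤ Z0 ∧
    ∀ (R : ℤ → ℤ → Prop) (δ : ℝ), 0 < δ → δ ≤ δ1 → ∀ Z : ℝ, Z0 ≤ Z → ∀ t : ℕ, t ≠ 0 →
    ((CFt R δ κ Z t).ncard : ℝ) / Z ^ ((5 : ℝ) / 6) ≤ C * (e t * (t : ℝ) ^ ((5 : ℝ) / 6)) := by
  obtain ⟨δ1, C, Y0, h1, h2, h3, h4⟩ := T_upper (κ / 3) (by linarith) (by linarith)
  refine ⟨δ1, C, Y0, h1, h2, h3, ?_⟩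
  intro R δ hδ hδ1 Z hZ t ht
  have hZ1 : 1 ≤ Z := h3.trans hZ
  have hZ0 : 0 < Z := by linarith
  have ht0 : (0 : ℝ) < t := by exact_mod_cast Nat.pos_of_ne_zero ht
  have ht1 : (1 : ℝ) ≤ t := by exact_mod_cast Nat.pos_of_ne_zero ht
  have hp : 0 < Z ^ ((5 : ℝ) / 6) := Real.rpow_pos_of_pos hZ0 _
  have htZ : Z ≤ t * Z := by nlinarith
  rcases Set.eq_empty_or_nonempty (CFt R δ κ Z t) with h | ⟨z0, hz0⟩
  · rw [h, Set.ncard_empty]
    have := e_nonneg t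
    push_cast
    rw [zero_div]
    positivity
  · have h5 := CFt_bound hz0
    have h6 : (t : ℝ) ≤ (t * Z) ^ δ1 := by
      refine h5.trans ?_
      have hN := N6_ge_one z0.1 z0.2
      calc (N6 z0.1 z0.2 : ℝ) ^ δ ≤ (t * Z) ^ δ :=
            Real.rpow_le_rpow (by linarith) (hz0.1.2.2.1.trans htZ) hδ.le
        _ ≤ (t * Z) ^ δ1 := Real.rpow_le_rpow_of_exponent_le (by linarith) hδ1
    have h7 := h4 (t * Z) (hZ.trans htZ) t ht h6
    have h8 : CFt R δ κ Z t ⊆ Fam (T t) (t * Z) ((t * Z) ^ (κ / 3)) := by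
      intro z hz
      have h9 := CFt_sub_HH ht hz
      refine ⟨?_, h9.1, h9.2.1, h9.2.2.2.1⟩
      have hN := N6_ge_one z.1 z.2
      have g1 : 4 * |(z.1 : ℝ)| ^ 3 ≤ (t * Z) ^ κ := by
        refine (le_max_left _ _).trans (hz.1.2.2.2.1.trans ?_)
        exact Real.rpow_le_rpow (by linarith) (hz.1.2.2.1.trans htZ) (by linarith)
      have g2 : ((t * Z) ^ (κ / 3)) ^ 3 = (t * Z) ^ κ := by
        rw [← Real.rpow_natCast, ← Real.rpow_mul (by positivity)]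
        congr 1
        push_cast
        ring
      have g3 : |(z.1 : ℝ)| ^ 3 ≤ ((t * Z) ^ (κ / 3)) ^ 3 := by
        rw [g2]
        have : 0 ≤ |(z.1 : ℝ)| ^ 3 := by positivity
        linarith
      exact (pow_le_pow_iff_left₀ (abs_nonneg _) (by positivity) (by norm_num)).1 g3
    have h10 : ((CFt R δ κ Z t).ncard : ℝ) ≤ C * e t * (t * Z) ^ ((5 : ℝ) / 6) :=
      le_trans (by exact_mod_cast Set.ncard_le_ncard h8 (fam_finite _ _ _)) h7
    rw [div_le_iff₀ hp]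
    refine h10.trans (le_of_eq ?_)
    rw [Real.mul_rpow ht0.le hZ0.le]
    ring

theorem CF_eq (R : ℤ → ℤ → Prop) {δ κ Z : ℝ} (hδ : 0 < δ) :
    CF R δ κ Z = ⋃ t ∈ Finset.Icc 1 ⌊Z ^ δ⌋₊, CFt R δ κ Z t := by
  ext z
  simp only [Set.mem_iUnion, Finset.mem_Icc]
  constructor
  · intro hz
    obtain ⟨t, ht, hT⟩ := exists_T hz.1
    refine ⟨t, ⟨Nat.pos_of_ne_zero ht, ?_⟩, hz, hT⟩
    have h1 := CFt_bound (Z := Z) ⟨hz, hT⟩
    refine Nat.le_floor (h1.trans ?_)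
    have hN := N6_ge_one z.1 z.2
    exact Real.rpow_le_rpow (by linarith) hz.2.2.1 hδ.le
  · rintro ⟨t, _, hz⟩
    exact hz.1

theorem CF_ncard (R : ℤ → ℤ → Prop) {δ κ Z : ℝ} (hδ : 0 < δ) (hκ : 0 < κ) (hZ : 1 ≤ Z) :
    ((CF R δ κ Z).ncard : ℝ) / Z ^ ((5 : ℝ) / 6) =
      ∑' t : ℕ, (if t = 0 then 0 else ((CFt R δ κ Z t).ncard : ℝ) / Z ^ ((5 : ℝ) / 6)) := by
  have hZ0 : 0 < Z := by linarith
  rw [tsum_eq_sum (s := Finset.Icc 1 ⌊Z ^ δ⌋₊)]
  · rw [CF_eq R hδ]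
    have h1 : (⋃ t ∈ Finset.Icc 1 ⌊Z ^ δ⌋₊, CFt R δ κ Z t).ncard =
        ∑ t ∈ Finset.Icc 1 ⌊Z ^ δ⌋₊, (CFt R δ κ Z t).ncard := by
      have hf : ∀ t ∈ Finset.Icc 1 ⌊Z ^ δ⌋₊, (CFt R δ κ Z t).Finite := fun t ht =>
        CFt_finite R hκ hZ0.le (by rw [Finset.mem_Icc] at ht; omega)
      generalize Finset.Icc 1 ⌊Z ^ δ⌋₊ = S at *
      classical
      induction S using Finset.induction_on with
      | empty => simp
      | insert a S ha ih =>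
        have hfU : (⋃ x ∈ S, CFt R δ κ Z x).Finite :=
          Set.Finite.biUnion S.finite_toSet fun t ht => hf t (Finset.mem_insert_of_mem ht)
        rw [Finset.set_biUnion_insert, Finset.sum_insert ha, Set.ncard_union_eq ?_
          (hf a (Finset.mem_insert_self _ _)) hfU,
          ih fun t ht => hf t (Finset.mem_insert_of_mem ht)]
        rw [Set.disjoint_left]
        intro z hz hz'
        simp only [Set.mem_iUnion] at hz'
        obtain ⟨t, ht, hz'⟩ := hz'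
        have := T_unique hz.2 hz'.2
        subst this
        exact ha ht
    rw [h1]
    push_cast
    rw [Finset.sum_div]
    refine Finset.sum_congr rfl fun t ht => ?_
    rw [Finset.mem_Icc] at ht
    rw [if_neg (by omega)]
  · intro t ht
    rw [Finset.mem_Icc] at ht
    split_ifs with h0
    · rfl
    · have h1 : CFt R δ κ Z t = ∅ := by
        ext z
        simp only [Set.mem_empty_iff_false, iff_false]
        intro hz
        apply ht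
        refine ⟨by omega, ?_⟩
        have h1 := CFt_bound hz
        refine Nat.le_floor (h1.trans ?_)
        have hN := N6_ge_one z.1 z.2
        exact Real.rpow_le_rpow (by linarith) hz.1.2.2.1 hδ.le
      rw [h1]
      simp

/-- the asymptotic number by conductor -/
theorem cond_lim {κ : ℝ} (hκ1 : 1 < κ) (hκ2 : κ < 8) : ∃ δ1 : ℝ, 0 < δ1 ∧
    ∀ (R : ℤ → ℤ → Prop) (L : ℕ → ℝ), (∀ t : ℕ, t ≠ 0 → DD (fun x y => T t x y ∧ R x y) (L t)) →
    L 0 = 0 → ∀ δ : ℝ, 0 < δ → δ ≤ δ1 →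
    Tendsto (fun Z : ℝ => ((CF R δ κ Z).ncard : ℝ) / Z ^ ((5 : ℝ) / 6)) atTop
      (𝓝 (∑' t : ℕ, c0 * L t * (t : ℝ) ^ ((5 : ℝ) / 6))) := by
  obtain ⟨δ1, C, Z0, h1, h2, h3, h4⟩ := CFt_le hκ1 hκ2
  refine ⟨δ1, h1, ?_⟩
  intro R L hR hL0 δ hδ hδ1
  have hbound := (e_summable (σ := 5 / 6) (by norm_num)).mul_left C
  have hlim := tendsto_tsum_of_dominated_convergence (𝓕 := (atTop : Filter ℝ))
    (f := fun (Z : ℝ) (t : ℕ) =>
      (if t = 0 then 0 else ((CFt R δ κ Z t).ncard : ℝ) / Z ^ ((5 : ℝ) / 6)))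
    (g := fun t => c0 * L t * (t : ℝ) ^ ((5 : ℝ) / 6)) hbound ?_ ?_
  · refine hlim.congr' ?_
    filter_upwards [eventually_ge_atTop 1] with Z hZ
    exact (CF_ncard R hδ (by linarith) hZ).symm
  · intro t
    by_cases ht : t = 0
    · subst ht
      simp [hL0]
    · simp only [if_neg ht]
      exact CFt_lim hδ hκ1 hκ2 ht (hR t ht)
  · filter_upwards [eventually_ge_atTop Z0] with Z hZ t
    have hZ0 : 0 < Z := by linarith
    split_ifs with h0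
    · rw [norm_zero, h0]
      simp [e_zero]
    · rw [Real.norm_of_nonneg (by positivity)]
      exact h4 R δ hδ hδ1 Z hZ t h0

end Pool.Agent.H460.EC
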