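import Pool.Agent.H460.EC.Sieve

/-! The curves with given quotient `|D| / N₆`, in the region of bounded discriminant. -/

set_option autoImplicit false

namespace Pool.Agent.H460.EC

open Filter Topology
open Pool.Agent.H828_AC (D Reg Per HasDens Bad Cut cut_finite reg_finite bad_finite bad_small
  AA WW WW_iff vD eN N6 D6 N6_fact N6_pos Qs PQ PQ_per lamq lamq_dens mu dens_WW WW_cong AA_cong
  D_cong per_inv forall_dens hh hh_lim Z10 law C1 ga prod_fact pow_dvd_iff AA_sq AA_per dens_min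
  zeta10_lim al zeta10_bounds)

/-- all minimal models -/
theorem DD_Qs : DD Qs Z10 := by
  refine sieve (P := fun n x y => ∀ p ∈ n.primesBelow, ¬ AA p 4 6 x y)
    (d := fun n => ∏ p ∈ n.primesBelow, (1 - 1 / (p : ℝ) ^ 10)) ?_ zeta10_lim ?_ ?_
  · intro n
    have hS : ∀ p ∈ n.primesBelow, p.Prime := fun p hp => Nat.prime_of_mem_primesBelow hp
    obtain ⟨⟨T, hT⟩, hdens⟩ := forall_dens n.primesBelow (fun p x y => ¬ AA p 4 6 x y)
      (fun _ => 6) (fun p => 1 - 1 / (p : ℝ) ^ 10) hS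
      (fun p hp => AA_per (hS p hp)) fun p hp => dens_min (hS p hp)
    have hne : NeZero (∏ p ∈ n.primesBelow, p ^ 6) :=
      ⟨Finset.prod_ne_zero_iff.2 fun p hp => pow_ne_zero _ (hS p hp).ne_zero⟩
    exact per_DD' hT hdens
  · exact Eventually.of_forall fun n x y _ hz p hp => hz.2 p (Nat.prime_of_mem_primesBelow hp)
  · refine Eventually.of_forall fun n x y h0 hz => ?_
    by_cases h1 : ∀ p : ℕ, p.Prime → ¬ AA p 4 6 x y
    · exact Or.inl ⟨h0, h1⟩
    · right
      push Not at h1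
      obtain ⟨p, hp, h2⟩ := h1
      refine ⟨p, hp, ?_, AA_sq (by norm_num) (by norm_num) h2⟩
      by_contra h3
      exact hz p (Nat.mem_primesBelow.2 ⟨by omega, hp⟩) h2

/-- the minimal models with `|D| = t N₆` -/
def T (t : ℕ) (a b : ℤ) : Prop := Qs a b ∧ (D a b).natAbs = t * N6 a b

/-- the local condition -/
def FF (p k : ℕ) (a b : ℤ) : Prop :=
  (5 ≤ p ∧ WW p k a b) ∨ (¬ 5 ≤ p ∧ (PQ p k a b ∧ ¬ PQ p (k + 1) a b))

theorem PQ_exact {p k : ℕ} (hp : p.Prime) {a b : ℤ} (h0 : D a b ≠ 0) :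
    (PQ p k a b ∧ ¬ PQ p (k + 1) a b) ↔ (¬ AA p 4 6 a b ∧ vD p a b = k) := by
  unfold PQ
  rw [pow_dvd_iff hp h0, pow_dvd_iff hp h0]
  constructor
  · rintro ⟨⟨h1, h2⟩, h3⟩
    refine ⟨h2, ?_⟩
    by_contra h4
    exact h3 ⟨by omega, h2⟩
  · rintro ⟨h1, h2⟩
    refine ⟨⟨by omega, h1⟩, ?_⟩
    rintro ⟨h3, _⟩
    omega

theorem T_iff {t : ℕ} (ht : t ≠ 0) {a b : ℤ} (h0 : D a b ≠ 0) :
    T t a b ↔ ∀ p : ℕ, p.Prime → FF p (t.factorization p) a b := by
  have hf : ∀ p : ℕ, p.Prime → (t * N6 a b).factorization p =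
      t.factorization p + if 5 ≤ p then eN p a b else 0 := by
    intro p hp
    rw [Nat.factorization_mul ht (N6_pos a b).ne', Finsupp.add_apply, N6_fact h0 hp]
  constructor
  · rintro ⟨⟨_, h1⟩, h2⟩ p hp
    have h3 : vD p a b = t.factorization p + if 5 ≤ p then eN p a b else 0 := by
      rw [← hf p hp, ← h2]
      rfl
    by_cases h5 : 5 ≤ p
    · left
      rw [if_pos h5] at h3
      exact ⟨h5, (WW_iff hp h5 h0 _).2 ⟨h1 p hp, h3⟩⟩
    · right
      rw [if_neg h5, add_zero] at h3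
      exact ⟨h5, (PQ_exact hp h0).2 ⟨h1 p hp, h3⟩⟩
  · intro h
    have h1 : ∀ p : ℕ, p.Prime → ¬ AA p 4 6 a b ∧
        vD p a b = t.factorization p + if 5 ≤ p then eN p a b else 0 := by
      intro p hp
      rcases h p hp with ⟨h5, h2⟩ | ⟨h5, h2⟩
      · rw [if_pos h5]
        exact (WW_iff hp h5 h0 _).1 h2
      · rw [if_neg h5, add_zero]
        exact (PQ_exact hp h0).1 h2
    refine ⟨⟨h0, fun p hp => (h1 p hp).1⟩, Nat.eq_of_factorization_eq (Int.natAbs_ne_zero.2 h0)
      (mul_ne_zero ht (N6_pos a b).ne') fun p => ?_⟩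
    by_cases hp : p.Prime
    · rw [hf p hp]
      exact (h1 p hp).2
    · rw [Nat.factorization_eq_zero_of_not_prime _ hp, Nat.factorization_eq_zero_of_not_prime _ hp]

theorem FF_per {p : ℕ} (hp : p.Prime) (j : ℕ) :
    ∃ S : Finset (ZMod (p ^ (j + 7)) × ZMod (p ^ (j + 7))), Per (p ^ (j + 7)) (FF p j) S := by
  have : NeZero (p ^ (j + 7)) := ⟨pow_ne_zero _ hp.ne_zero⟩
  refine per_inv fun x x' y y' hx hy => ?_
  push_cast at hx hy
  unfold FF PQ
  rw [WW_cong (by omega) hx hy, AA_cong (i := 4) (j := 6) (by omega) (by omega) hx hy,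
    Pool.Agent.H828_SQ.dvd_cong (pow_dvd_pow (p : ℤ) (by omega : j ≤ j + 7)) (D_cong hx hy),
    Pool.Agent.H828_SQ.dvd_cong (pow_dvd_pow (p : ℤ) (by omega : j + 1 ≤ j + 7)) (D_cong hx hy)]
  exact id

noncomputable def ff (p k : ℕ) : ℝ := if 5 ≤ p then mu p k else lamq p k - lamq p (k + 1)

theorem FF_dens {p : ℕ} (hp : p.Prime) (j : ℕ) : HasDens (FF p j) (ff p j) := by
  unfold ff FF
  split_ifs with h5
  · refine (dens_WW hp h5 j).congr fun x y => ?_
    tauto
  · have h1 := (lamq_dens hp j).diff (lamq_dens hp (j + 1)) fun x y h => by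
      refine ⟨(pow_dvd_pow _ (by omega)).trans h.1, h.2⟩
    refine h1.congr fun x y => ?_
    tauto

/-- the prime-to-6 part -/
def m6 (t : ℕ) : ℕ := ∏ p ∈ t.primeFactors.filter (fun p => 5 ≤ p), p ^ t.factorization p

theorem m6_fact {t : ℕ} (p : ℕ) :
    (m6 t).factorization p = if 5 ≤ p then t.factorization p else 0 := by
  unfold m6
  rw [prod_fact (fun q hq => Nat.prime_of_mem_primeFactors (Finset.mem_filter.1 hq).1)]
  by_cases h5 : 5 ≤ p
  · rw [if_pos h5]
    by_cases hp : p ∈ t.primeFactors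
    · rw [if_pos (Finset.mem_filter.2 ⟨hp, h5⟩)]
    · rw [if_neg (fun h => hp (Finset.mem_filter.1 h).1)]
      rw [← Nat.support_factorization, Finsupp.notMem_support_iff] at hp
      exact hp.symm
  · rw [if_neg h5, if_neg (fun h => h5 (Finset.mem_filter.1 h).2)]

theorem m6_pos (t : ℕ) : 0 < m6 t :=
  Finset.prod_pos fun _ hp =>
    pow_pos (Nat.prime_of_mem_primeFactors (Finset.mem_filter.1 hp).1).pos _

theorem m6_coprime (t : ℕ) : (m6 t).Coprime 6 := by
  have h : ∀ p : ℕ, p.Prime → ¬ 5 ≤ p → (m6 t).Coprime p := by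
    intro p hp h5
    rw [Nat.coprime_comm]
    refine (Nat.Prime.coprime_iff_not_dvd hp).2 fun h1 => ?_
    have h2 := hp.factorization_pos_of_dvd (m6_pos t).ne' h1
    rw [m6_fact, if_neg h5] at h2
    exact absurd h2 (lt_irrefl _)
  exact Nat.Coprime.mul_right (h 2 Nat.prime_two (by norm_num)) (h 3 Nat.prime_three (by norm_num))

/-- the local weights at 2 and 3 -/
noncomputable def ae (q i : ℕ) : ℝ := al q i - al q (i + 1)

/-- the limit law of `|D| / N₆` -/
noncomputable def e (t : ℕ) : ℝ :=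
  if t = 0 then 0 else ae 2 (t.factorization 2) * ae 3 (t.factorization 3) * law (m6 t)

theorem prod_ff (t : ℕ) {n : ℕ} (hn : 4 ≤ n) :
    ∏ p ∈ n.primesBelow, ff p (t.factorization p) =
      ae 2 (t.factorization 2) * ae 3 (t.factorization 3) *
        ∏ p ∈ n.primesBelow, hh p ((m6 t).factorization p) := by
  have h2 : 2 ∈ n.primesBelow := Nat.mem_primesBelow.2 ⟨by omega, Nat.prime_two⟩
  have h3 : 3 ∈ (n.primesBelow).erase 2 :=
    Finset.mem_erase.2 ⟨by norm_num, Nat.mem_primesBelow.2 ⟨by omega, Nat.prime_three⟩⟩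
  rw [← Finset.mul_prod_erase _ _ h2, ← Finset.mul_prod_erase _ _ h3,
    ← Finset.mul_prod_erase _ (fun p => hh p ((m6 t).factorization p)) h2,
    ← Finset.mul_prod_erase _ (fun p => hh p ((m6 t).factorization p)) h3]
  have e1 : ∏ p ∈ ((n.primesBelow).erase 2).erase 3, ff p (t.factorization p) =
      ∏ p ∈ ((n.primesBelow).erase 2).erase 3, hh p ((m6 t).factorization p) := by
    refine Finset.prod_congr rfl fun p hp => ?_
    rw [Finset.mem_erase, Finset.mem_erase] at hp
    have hpp := Nat.prime_of_mem_primesBelow hp.2.2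
    have := hpp.two_le
    have h4 : p ≠ 4 := by
      rintro rfl
      exact absurd hpp (by norm_num)
    have h5 : 5 ≤ p := by omega
    unfold ff hh
    rw [if_pos h5, if_pos h5, m6_fact, if_pos h5]
  rw [e1]
  have e2 : ∀ q : ℕ, q.Prime → ¬ 5 ≤ q → ff q (t.factorization q) =
      ae q (t.factorization q) * hh q ((m6 t).factorization q) := by
    intro q hq h5
    unfold ff hh ae al
    rw [if_neg h5, if_neg h5]
    have h6 := (zeta10_bounds (p := q) hq.two_le).ne'
    field_simp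
  rw [e2 2 Nat.prime_two (by norm_num), e2 3 Nat.prime_three (by norm_num)]
  ring

theorem DD_T {t : ℕ} (ht : t ≠ 0) : DD (T t) (Z10 * e t) := by
  refine sieve (P := fun n x y => ∀ p ∈ n.primesBelow, FF p (t.factorization p) x y)
    (d := fun n => ∏ p ∈ n.primesBelow, ff p (t.factorization p)) ?_ ?_ ?_ ?_
  · intro n
    have hS : ∀ p ∈ n.primesBelow, p.Prime := fun p hp => Nat.prime_of_mem_primesBelow hp
    obtain ⟨⟨S, hT⟩, hdens⟩ := forall_dens n.primesBelow (fun p => FF p (t.factorization p))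
      (fun p => t.factorization p + 7) (fun p => ff p (t.factorization p)) hS
      (fun p hp => FF_per (hS p hp) _) fun p hp => FF_dens (hS p hp) _
    have hne : NeZero (∏ p ∈ n.primesBelow, p ^ (t.factorization p + 7)) :=
      ⟨Finset.prod_ne_zero_iff.2 fun p hp => pow_ne_zero _ (hS p hp).ne_zero⟩
    exact per_DD' hT hdens
  · have h1 := (hh_lim (m6_coprime t)).const_mul
      (ae 2 (t.factorization 2) * ae 3 (t.factorization 3))
    have e1 : Z10 * e t = ae 2 (t.factorization 2) * ae 3 (t.factorization 3) *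
        ((∑' n : ℕ, 1 / (n : ℝ) ^ 10)⁻¹ * (C1 * ga (m6 t))) := by
      unfold e
      rw [if_neg ht]
      unfold law Z10
      ring
    rw [e1]
    refine h1.congr' ?_
    filter_upwards [eventually_ge_atTop 4] with n hn
    rw [prod_ff t hn]
  · exact Eventually.of_forall fun n x y h0 hz p hp =>
      (T_iff ht h0).1 hz p (Nat.prime_of_mem_primesBelow hp)
  · filter_upwards [eventually_gt_atTop t, eventually_ge_atTop 5] with n hn hn5 x y h0 hz
    by_cases h1 : ∀ p : ℕ, p.Prime → FF p (t.factorization p) x y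
    · exact Or.inl ((T_iff ht h0).2 h1)
    · right
      push Not at h1
      obtain ⟨p, hp, h2⟩ := h1
      have h3 : n ≤ p := by
        by_contra h3
        exact h2 (hz p (Nat.mem_primesBelow.2 ⟨by omega, hp⟩))
      have h4 : t.factorization p = 0 := by
        refine Nat.factorization_eq_zero_of_not_dvd fun h5 => ?_
        have := Nat.le_of_dvd (Nat.pos_of_ne_zero ht) h5
        omega
      refine ⟨p, hp, h3, ?_⟩
      have h5 : ¬ WW p 0 x y := by
        intro h6
        apply h2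
        left
        rw [h4]
        exact ⟨by omega, h6⟩
      unfold WW at h5
      rw [if_pos rfl, not_not] at h5
      rcases h5 with h5 | h5
      · exact h5.2
      · exact AA_sq le_rfl (by norm_num) h5

theorem e_nonneg (t : ℕ) : 0 ≤ e t := by
  by_cases ht : t = 0
  · unfold e
    rw [if_pos ht]
  · exact nonneg_of_mul_nonneg_right (DD_T ht).nonneg Pool.Agent.H828_AC.Z10_pos

end Pool.Agent.H460.EC
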