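import Pool.Agent.H460.EC.Exact

/-! The bound for the height in terms of the discriminant of the curve. -/

set_option autoImplicit false

namespace Pool.Agent.H460.EC

open Filter Topology
open Pool.Agent.H828_AC (D Ht)

/-- the pairs with `0 < |D| ≤ Y`, height at most `B |D| ^ κ` and the property `Q` -/
def HHset (Q : ℤ → ℤ → Prop) (κ B Y : ℝ) : Set (ℤ × ℤ) :=
  {z | D z.1 z.2 ≠ 0 ∧ |(D z.1 z.2 : ℝ)| ≤ Y ∧ Ht z.1 z.2 ≤ B * |(D z.1 z.2 : ℝ)| ^ κ ∧ Q z.1 z.2}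

theorem HH_sub {Q : ℤ → ℤ → Prop} {κ B Y : ℝ} (hκ : 0 < κ) (hB : 0 < B) (hY : 0 ≤ Y) :
    HHset Q κ B Y ⊆ Fam Q Y (B ^ ((1 : ℝ) / 3) * Y ^ (κ / 3)) := by
  rintro z ⟨h1, h2, h3, h4⟩
  refine ⟨?_, h1, h2, h4⟩
  have h5 : 4 * |(z.1 : ℝ)| ^ 3 ≤ B * Y ^ κ := by
    refine (le_max_left _ _).trans (h3.trans ?_)
    exact mul_le_mul_of_nonneg_left (Real.rpow_le_rpow (abs_nonneg _) h2 hκ.le) hB.le
  have h6 : (B ^ ((1 : ℝ) / 3) * Y ^ (κ / 3)) ^ 3 = B * Y ^ κ := by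
    rw [mul_pow, ← Real.rpow_natCast (B ^ ((1 : ℝ) / 3)), ← Real.rpow_mul hB.le,
      ← Real.rpow_natCast (Y ^ (κ / 3)), ← Real.rpow_mul hY]
    push_cast
    norm_num
  have h7 : |(z.1 : ℝ)| ^ 3 ≤ (B ^ ((1 : ℝ) / 3) * Y ^ (κ / 3)) ^ 3 := by
    rw [h6]
    have : 0 ≤ |(z.1 : ℝ)| ^ 3 := by positivity
    linarith
  exact (pow_le_pow_iff_left₀ (abs_nonneg _) (by positivity) (by norm_num)).1 h7

theorem HH_finite (Q : ℤ → ℤ → Prop) {κ B Y : ℝ} (hκ : 0 < κ) (hB : 0 < B) (hY : 0 ≤ Y) :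
    (HHset Q κ B Y).Finite := (fam_finite _ _ _).subset (HH_sub hκ hB hY)

theorem HH_lim {Q : ℤ → ℤ → Prop} {d : ℝ} (hQ : DD Q d) {κ B : ℝ} (hκ1 : 1 < κ) (hκ2 : κ < 8)
    (hB : 0 < B) :
    Tendsto (fun Y : ℝ => ((HHset Q κ B Y).ncard : ℝ) / Y ^ ((5 : ℝ) / 6)) atTop
      (𝓝 (c0 * d)) := by
  set θ := κ / 3 with hθ
  have h1 : 1 / 3 < θ := by rw [hθ]; linarith
  have h2 : θ < 8 / 3 := by rw [hθ]; linarith
  set θ0 := (1 / 3 + θ) / 2 with hθ0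
  have hθ01 : 1 / 3 < θ0 := by rw [hθ0]; linarith
  have hθ0p : 0 < θ0 := by linarith
  have hθp : 0 < θ := by linarith
  set σ := (1 + θ0 / θ) / 2 with hσ
  have hq1 : θ0 / θ < 1 := by rw [div_lt_one hθp]; rw [hθ0]; linarith
  have hq0 : 0 < θ0 / θ := by positivity
  have hσ1 : σ < 1 := by rw [hσ]; linarith
  have hσ0 : θ0 / θ < σ := by rw [hσ]; linarith
  have hσp : 0 < σ := by linarith
  have hσθ : θ0 < σ * θ := by rwa [div_lt_iff₀ hθp] at hσ0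
  have hρ1 : 1 / 3 < θ0 / σ := by
    rw [lt_div_iff₀ hσp]
    nlinarith
  have hρ2 : θ0 / σ < 8 / 3 := by
    rw [div_lt_iff₀ hσp]
    nlinarith
  have hBp : 0 < B ^ ((1 : ℝ) / 3) := Real.rpow_pos_of_pos hB _
  have L1 := hQ θ (B ^ ((1 : ℝ) / 3)) h1 h2 hBp
  have L2 := hQ θ0 1 hθ01 (by rw [hθ0]; linarith) one_pos
  have L3 := hQ (θ0 / σ) 1 hρ1 hρ2 one_pos
  have L4 := L3.comp (tendsto_rpow_atTop hσp)
  have L5 : Tendsto (fun K : ℝ => K ^ (-((1 - σ) * (5 / 6)) : ℝ)) atTop (𝓝 0) :=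
    tendsto_rpow_neg_atTop (by nlinarith)
  have L6 := L2.sub (L4.mul L5)
  rw [mul_zero, sub_zero] at L6
  refine tendsto_of_tendsto_of_tendsto_of_le_of_le' L6 L1 ?_ ?_
  · have ev : ∀ᶠ K : ℝ in atTop, 5 / B ≤ K ^ (3 * (σ * θ) - 3 * θ0) :=
      (tendsto_rpow_atTop (by linarith : 0 < 3 * (σ * θ) - 3 * θ0)).eventually_ge_atTop _
    filter_upwards [ev, eventually_ge_atTop 1] with Y hY1 hY
    have hY0 : 0 < Y := by linarith
    have hp : 0 < Y ^ ((5 : ℝ) / 6) := Real.rpow_pos_of_pos hY0 _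
    have e1 : (Y ^ σ) ^ (θ0 / σ) = Y ^ θ0 := by
      rw [← Real.rpow_mul hY0.le]
      congr 1
      field_simp
    simp only [Function.comp, e1]
    have e2 : ((Fam Q (Y ^ σ) (1 * Y ^ θ0)).ncard : ℝ) / (Y ^ σ) ^ ((5 : ℝ) / 6)
        * Y ^ (-((1 - σ) * (5 / 6)) : ℝ)
        = ((Fam Q (Y ^ σ) (1 * Y ^ θ0)).ncard : ℝ) / Y ^ ((5 : ℝ) / 6) := by
      rw [← Real.rpow_mul hY0.le, div_mul_eq_mul_div,
        div_eq_div_iff (Real.rpow_pos_of_pos hY0 _).ne' hp.ne', mul_assoc, ← Real.rpow_add hY0]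
      congr 2
      ring
    rw [e2, ← sub_div]
    refine (div_le_div_iff_of_pos_right hp).mpr ?_
    have hsub : Fam Q Y (1 * Y ^ θ0) \ Fam Q (Y ^ σ) (1 * Y ^ θ0) ⊆ HHset Q κ B Y := by
      rintro z ⟨⟨b1, b2, b3, b4⟩, b6⟩
      refine ⟨b2, b3, ?_, b4⟩
      have b7 : Y ^ σ < |(D z.1 z.2 : ℝ)| := by
        by_contra hc
        push Not at hc
        exact b6 ⟨b1, b2, hc, b4⟩
      have b8 : Y ^ (3 * (σ * θ)) ≤ |(D z.1 z.2 : ℝ)| ^ κ := by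
        have : 3 * (σ * θ) = σ * κ := by rw [hθ]; ring
        rw [this, Real.rpow_mul hY0.le]
        exact Real.rpow_le_rpow (Real.rpow_nonneg hY0.le _) b7.le (by linarith)
      have b9 : 5 * Y ^ (3 * θ0) ≤ B * Y ^ (3 * (σ * θ)) := by
        have : Y ^ (3 * (σ * θ)) = Y ^ (3 * (σ * θ) - 3 * θ0) * Y ^ (3 * θ0) := by
          rw [← Real.rpow_add hY0]; congr 1; ring
        rw [this, ← mul_assoc]
        refine mul_le_mul_of_nonneg_right ?_ (Real.rpow_nonneg hY0.le _)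
        rwa [div_le_iff₀ hB, mul_comm] at hY1
      have b10 : |(z.1 : ℝ)| ^ 3 ≤ Y ^ (3 * θ0) := by
        rw [one_mul] at b1
        have h5 := pow_le_pow_left₀ (abs_nonneg _) b1 3
        rw [← Real.rpow_natCast (Y ^ θ0), ← Real.rpow_mul hY0.le] at h5
        push_cast at h5
        rwa [mul_comm θ0 3] at h5
      have b11 : Y ≤ Y ^ (3 * θ0) := by
        conv_lhs => rw [← Real.rpow_one Y]
        exact Real.rpow_le_rpow_of_exponent_le hY (by linarith)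
      have b12 : B * Y ^ (3 * (σ * θ)) ≤ B * |(D z.1 z.2 : ℝ)| ^ κ :=
        mul_le_mul_of_nonneg_left b8 hB.le
      refine max_le (by nlinarith) ?_
      have h6 : ((D z.1 z.2 : ℤ) : ℝ) = 4 * (z.1 : ℝ) ^ 3 - 27 * (z.2 : ℝ) ^ 2 := by
        unfold D
        push_cast
        ring
      have h7 := (abs_le.1 b3).1
      rw [h6] at h7
      have h8 : (z.1 : ℝ) ^ 3 ≤ |(z.1 : ℝ)| ^ 3 := by
        rw [← abs_pow]
        exact le_abs_self _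
      linarith
    have h5 := Set.ncard_le_ncard hsub (HH_finite Q (by linarith) hB hY0.le)
    have h6 := Set.le_ncard_sdiff (Fam Q (Y ^ σ) (1 * Y ^ θ0)) (Fam Q Y (1 * Y ^ θ0))
      (fam_finite _ _ _)
    have h7 : (Fam Q Y (1 * Y ^ θ0)).ncard
          ≤ (HHset Q κ B Y).ncard + (Fam Q (Y ^ σ) (1 * Y ^ θ0)).ncard := by omega
    have h8 : ((Fam Q Y (1 * Y ^ θ0)).ncard : ℝ)
          ≤ ((HHset Q κ B Y).ncard : ℝ) + ((Fam Q (Y ^ σ) (1 * Y ^ θ0)).ncard : ℝ) := by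
      exact_mod_cast h7
    linarith
  · filter_upwards [eventually_ge_atTop 1] with Y hY
    have hY0 : 0 < Y := by linarith
    have hp : 0 < Y ^ ((5 : ℝ) / 6) := Real.rpow_pos_of_pos hY0 _
    refine (div_le_div_iff_of_pos_right hp).mpr ?_
    exact_mod_cast Set.ncard_le_ncard (HH_sub (by linarith) hB hY0.le) (fam_finite _ _ _)

end Pool.Agent.H460.EC
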