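import Pool.Agent.H460.EC.Unif

/-! The limit law of `|D| / N₆`. -/

set_option autoImplicit false

namespace Pool.Agent.H460.EC

open Filter Topology
open Pool.Agent.H828_AC (D HasDens lamq lamq_dens zeta10_bounds al al_nonneg al_le sum_al sum_law
  law law_nonneg law_hasSum dens_min dens_nonneg ga)

theorem ae_nonneg {q : ℕ} (hq : q = 2 ∨ q = 3) (i : ℕ) : 0 ≤ ae q i := by
  have hqp : q.Prime := by
    rcases hq with rfl | rfl
    · exact Nat.prime_two
    · exact Nat.prime_three
  have h5 : ¬ 5 ≤ q := by omega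
  have h6 := zeta10_bounds (p := q) hqp.two_le
  have e1 : ff q i = ae q i * (1 - 1 / (q : ℝ) ^ 10) := by
    unfold ff ae al
    rw [if_neg h5]
    field_simp
  have h7 : 0 ≤ ff q i := dens_nonneg (FF_dens hqp _)
  rw [e1] at h7
  exact nonneg_of_mul_nonneg_left h7 h6

theorem ae_le {q : ℕ} (hq : q = 2 ∨ q = 3) (i : ℕ) : ae q i ≤ al q i := by
  have hqp : q.Prime := by
    rcases hq with rfl | rfl
    · exact Nat.prime_two
    · exact Nat.prime_three
  have := al_nonneg hqp (i + 1)
  unfold ae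
  linarith

theorem al_zero {q : ℕ} (hq : q.Prime) : al q 0 = 1 := by
  have h1 : HasDens (Pool.Agent.H828_AC.PQ q 0) (1 - 1 / (q : ℝ) ^ 10) := by
    refine (dens_min hq).congr fun x y => ?_
    unfold Pool.Agent.H828_AC.PQ
    simp
  have h2 := (lamq_dens hq 0).unique h1
  unfold al
  rw [h2]
  exact div_self (zeta10_bounds hq.two_le).ne'

theorem ae_hasSum {q : ℕ} (hq : q = 2 ∨ q = 3) : HasSum (ae q) 1 := by
  have hqp : q.Prime := by
    rcases hq with rfl | rfl
    · exact Nat.prime_two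
    · exact Nat.prime_three
  have hq1 : (1 : ℝ) < q := by rcases hq with rfl | rfl <;> norm_num
  rw [hasSum_iff_tendsto_nat_of_nonneg (ae_nonneg hq)]
  have h1 : ∀ n, ∑ i ∈ Finset.range n, ae q i = 1 - al q n := by
    intro n
    unfold ae
    rw [Finset.sum_range_sub', al_zero hqp]
  simp only [h1]
  obtain ⟨C, hC, h⟩ := al_le hq
  have h2 : Tendsto (fun n => al q n) atTop (𝓝 0) :=
    squeeze_zero (fun n => al_nonneg hqp n) h
      ((tendsto_pow_atTop_atTop_of_one_lt hq1).const_div_atTop C)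
  have := h2.const_sub 1
  rwa [sub_zero] at this

theorem ae_summable {q : ℕ} (hq : q = 2 ∨ q = 3) {σ : ℝ} (hσ : σ < 1) :
    Summable fun i : ℕ => ((q : ℝ) ^ i) ^ σ * ae q i := by
  obtain ⟨A, hA, h⟩ := sum_al hq hσ
  refine summable_of_sum_range_le (c := A) (fun i => mul_nonneg (by positivity) (ae_nonneg hq i))
    fun n => (Finset.sum_le_sum fun i _ => ?_).trans (h n)
  exact mul_le_mul_of_nonneg_left (ae_le hq i) (by positivity)

theorem law_zero : law 0 = 0 := by simp [law, Pool.Agent.H828_AC.ga_zero]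

theorem law_summable {σ : ℝ} (hσ : σ < 1) : Summable fun w : ℕ => (w : ℝ) ^ σ * law w := by
  obtain ⟨A, hA, h⟩ := sum_law hσ
  refine summable_of_sum_range_le (c := A) (fun i => mul_nonneg (by positivity) (law_nonneg i))
    fun n => ?_
  refine le_trans ?_ (h n)
  rw [← Finset.sum_erase (Finset.range n) (a := 0) (by rw [law_zero, mul_zero])]
  refine Finset.sum_le_sum_of_subset_of_nonneg (fun i hi => ?_) fun i _ _ =>
    mul_nonneg (by positivity) (law_nonneg i)
  rw [Finset.mem_erase, Finset.mem_range] at hi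
  rw [Finset.mem_Icc]
  omega

theorem law_not_coprime {w : ℕ} (h : ¬ w.Coprime 6) : law w = 0 := by
  unfold law ga
  rw [if_neg h, mul_zero]

/-- the three components -/
def gi (x : ℕ × ℕ × ℕ) : ℕ := 2 ^ x.1 * 3 ^ x.2.1 * x.2.2

theorem gi_fact {i j w : ℕ} (hw : w.Coprime 6) (hw0 : w ≠ 0) (p : ℕ) :
    (2 ^ i * 3 ^ j * w).factorization p =
      if p = 2 then i else if p = 3 then j else w.factorization p := by
  have h2 : (2 ^ i : ℕ) ≠ 0 := by positivity
  have h3 : (3 ^ j : ℕ) ≠ 0 := by positivity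
  rw [Nat.factorization_mul (mul_ne_zero h2 h3) hw0, Nat.factorization_mul h2 h3,
    Finsupp.add_apply, Finsupp.add_apply, Nat.prime_two.factorization_pow,
    Nat.prime_three.factorization_pow]
  have hw2 : w.factorization 2 = 0 :=
    Pool.Agent.H828_AC.fact_not_five hw Nat.prime_two (by norm_num)
  have hw3 : w.factorization 3 = 0 :=
    Pool.Agent.H828_AC.fact_not_five hw Nat.prime_three (by norm_num)
  by_cases hp2 : p = 2
  · subst hp2
    simp [hw2]
  · by_cases hp3 : p = 3
    · subst hp3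
      simp [hw3]
    · rw [if_neg hp2, if_neg hp3, Finsupp.single_eq_of_ne (by omega),
        Finsupp.single_eq_of_ne (by omega)]
      simp

theorem gi_m6 {i j w : ℕ} (hw : w.Coprime 6) (hw0 : w ≠ 0) : m6 (2 ^ i * 3 ^ j * w) = w := by
  refine Nat.eq_of_factorization_eq (m6_pos _).ne' hw0 fun p => ?_
  rw [m6_fact]
  split_ifs with h5
  · rw [gi_fact hw hw0, if_neg (by omega), if_neg (by omega)]
  · by_cases hp : p.Prime
    · exact (Pool.Agent.H828_AC.fact_not_five hw hp h5).symm
    · exact (Nat.factorization_eq_zero_of_not_prime _ hp).symm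

theorem e_gi {i j w : ℕ} (hw : w.Coprime 6) (hw0 : w ≠ 0) :
    e (2 ^ i * 3 ^ j * w) = ae 2 i * ae 3 j * law w := by
  unfold e
  have h0 : 2 ^ i * 3 ^ j * w ≠ 0 := by positivity
  rw [if_neg h0, gi_m6 hw hw0, gi_fact hw hw0, gi_fact hw hw0]
  simp

theorem gi_of {t : ℕ} (ht : t ≠ 0) :
    2 ^ t.factorization 2 * 3 ^ t.factorization 3 * m6 t = t := by
  have h0 : 2 ^ t.factorization 2 * 3 ^ t.factorization 3 * m6 t ≠ 0 := by
    have := m6_pos t
    positivity
  refine Nat.eq_of_factorization_eq h0 ht fun p => ?_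
  rw [gi_fact (m6_coprime t) (m6_pos t).ne', m6_fact]
  by_cases hp2 : p = 2
  · rw [if_pos hp2, hp2]
  · by_cases hp3 : p = 3
    · rw [if_neg hp2, if_pos hp3, hp3]
    · rw [if_neg hp2, if_neg hp3]
      by_cases hp : p.Prime
      · have := hp.two_le
        have h4 : p ≠ 4 := by
          rintro rfl
          exact absurd hp (by norm_num)
        rw [if_pos (by omega)]
      · rw [Nat.factorization_eq_zero_of_not_prime _ hp]
        simp

theorem e_sum_iff (σ a : ℝ) :
    HasSum (fun t : ℕ => e t * (t : ℝ) ^ σ) a ↔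
    HasSum (fun x : ℕ × ℕ × ℕ => (((2 : ℕ) : ℝ) ^ x.1) ^ σ * ae 2 x.1 *
      ((((3 : ℕ) : ℝ) ^ x.2.1) ^ σ * ae 3 x.2.1 * ((x.2.2 : ℝ) ^ σ * law x.2.2))) a := by
  have hval : ∀ i j w : ℕ, w.Coprime 6 → w ≠ 0 →
      e (2 ^ i * 3 ^ j * w) * ((2 ^ i * 3 ^ j * w : ℕ) : ℝ) ^ σ =
      (((2 : ℕ) : ℝ) ^ i) ^ σ * ae 2 i *
        ((((3 : ℕ) : ℝ) ^ j) ^ σ * ae 3 j * ((w : ℝ) ^ σ * law w)) := by
    intro i j w hw hw0
    rw [e_gi hw hw0]
    push_cast
    rw [Real.mul_rpow (by positivity) (by positivity), Real.mul_rpow (by positivity) (by positivity)]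
    ring
  refine hasSum_iff_hasSum_of_ne_zero_bij (fun x => gi x.1) ?_ ?_ ?_
  · rintro ⟨⟨i, j, w⟩, hx⟩ ⟨⟨i', j', w'⟩, hx'⟩ h
    rw [Function.mem_support] at hx hx'
    simp only at hx hx'
    have hw : w.Coprime 6 := by
      by_contra hc
      rw [law_not_coprime hc] at hx
      simp at hx
    have hw' : w'.Coprime 6 := by
      by_contra hc
      rw [law_not_coprime hc] at hx'
      simp at hx'
    have hw0 : w ≠ 0 := by
      rintro rfl
      norm_num at hw
    have hw0' : w' ≠ 0 := by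
      rintro rfl
      norm_num at hw'
    simp only [gi] at h
    have a1 := congrArg (fun n : ℕ => n.factorization 2) h
    have a2 := congrArg (fun n : ℕ => n.factorization 3) h
    have a3 := congrArg m6 h
    simp only [gi_fact hw hw0, gi_fact hw' hw0'] at a1 a2
    rw [gi_m6 hw hw0, gi_m6 hw' hw0'] at a3
    simp at a1 a2
    subst a1
    subst a2
    subst a3
    rfl
  · intro t ht
    rw [Function.mem_support] at ht
    have ht0 : t ≠ 0 := by
      rintro rfl
      simp [e] at ht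
    refine ⟨⟨(t.factorization 2, t.factorization 3, m6 t), ?_⟩, gi_of ht0⟩
    rw [Function.mem_support]
    simp only
    rw [← hval _ _ _ (m6_coprime t) (m6_pos t).ne', gi_of ht0]
    exact ht
  · rintro ⟨⟨i, j, w⟩, hx⟩
    rw [Function.mem_support] at hx
    simp only at hx
    have hw : w.Coprime 6 := by
      by_contra hc
      rw [law_not_coprime hc] at hx
      simp at hx
    have hw0 : w ≠ 0 := by
      rintro rfl
      norm_num at hw
    exact hval i j w hw hw0

theorem e_hasSum : HasSum e 1 := by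
  have h := (e_sum_iff 0 1).2 ?_
  · simpa using h
  · simp only [Real.rpow_zero, one_mul]
    have h2 := ae_hasSum (Or.inl rfl : 2 = 2 ∨ 2 = 3)
    have h3 := ae_hasSum (Or.inr rfl : 3 = 2 ∨ 3 = 3)
    have hn2 : 0 ≤ ae 2 := fun i => ae_nonneg (Or.inl rfl) i
    have hn3 : 0 ≤ ae 3 := fun i => ae_nonneg (Or.inr rfl) i
    have hnl : 0 ≤ law := fun i => law_nonneg i
    have s23 := Summable.mul_of_nonneg h3.summable law_hasSum.summable hn3 hnl
    have hs23 := h3.mul law_hasSum s23
    have hn23 : 0 ≤ fun x : ℕ × ℕ => ae 3 x.1 * law x.2 := fun x => mul_nonneg (hn3 _) (hnl _)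
    have s := Summable.mul_of_nonneg h2.summable hs23.summable hn2 hn23
    have hs := h2.mul hs23 s
    rw [mul_one, mul_one] at hs
    exact hs

theorem e_summable {σ : ℝ} (hσ : σ < 1) : Summable fun t : ℕ => e t * (t : ℝ) ^ σ := by
  have h2 := ae_summable (Or.inl rfl : 2 = 2 ∨ 2 = 3) hσ
  have h3 := ae_summable (Or.inr rfl : 3 = 2 ∨ 3 = 3) hσ
  have hl := law_summable hσ
  have s23 := Summable.mul_of_nonneg h3 hl
    (fun i => mul_nonneg (by positivity) (ae_nonneg (Or.inr rfl) i))
    (fun i => mul_nonneg (by positivity) (law_nonneg i))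
  have s := Summable.mul_of_nonneg h2 s23
    (fun i => mul_nonneg (by positivity) (ae_nonneg (Or.inl rfl) i))
    (fun x => mul_nonneg (mul_nonneg (by positivity) (ae_nonneg (Or.inr rfl) _))
      (mul_nonneg (by positivity) (law_nonneg _)))
  obtain ⟨a, ha⟩ := s
  exact ⟨a, (e_sum_iff σ a).2 ha⟩

end Pool.Agent.H460.EC
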