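import Pool.Agent.H460.EC.Class

/-! Densities in the region of bounded discriminant: algebra, the tail and the sieve. -/

set_option autoImplicit false

namespace Pool.Agent.H460.EC

open Filter Topology
open Pool.Agent.H828_AC (D Reg Per HasDens Bad Cut cut_finite reg_finite bad_finite bad_small)

variable {P Q : ℤ → ℤ → Prop} {d d' : ℝ}

theorem DD.congr (h : DD P d) (hPQ : ∀ x y, D x y ≠ 0 → (P x y ↔ Q x y)) : DD Q d := by
  have : Fam P = Fam Q := by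
    funext Y A
    ext z
    simp only [Fam, Set.mem_ofPred_eq]
    constructor
    · rintro ⟨h1, h2, h3, h4⟩
      exact ⟨h1, h2, h3, (hPQ _ _ h2).1 h4⟩
    · rintro ⟨h1, h2, h3, h4⟩
      exact ⟨h1, h2, h3, (hPQ _ _ h2).2 h4⟩
  intro θ A h1 h2 hA
  rw [← this]
  exact h θ A h1 h2 hA

theorem DD.add (hP : DD P d) (hQ : DD Q d') (hPQ : ∀ x y, P x y → ¬ Q x y) :
    DD (fun x y => P x y ∨ Q x y) (d + d') := by
  intro θ A h1 h2 hA
  rw [mul_add]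
  refine ((hP θ A h1 h2 hA).add (hQ θ A h1 h2 hA)).congr fun Y => ?_
  have : Fam (fun x y => P x y ∨ Q x y) Y (A * Y ^ θ) =
      Fam P Y (A * Y ^ θ) ∪ Fam Q Y (A * Y ^ θ) := by
    ext z
    simp only [Fam, Set.mem_ofPred_eq, Set.mem_union]
    tauto
  rw [this, Set.ncard_union_eq _ (fam_finite _ _ _) (fam_finite _ _ _)]
  · push_cast
    ring
  · rw [Set.disjoint_left]
    rintro z h1 h2
    exact hPQ _ _ h1.2.2.2 h2.2.2.2

theorem DD_false : DD (fun _ _ => False) 0 := by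
  intro θ A h1 h2 hA
  have : ∀ Y, Fam (fun _ _ => False) Y (A * Y ^ θ) = ∅ := by
    intro Y
    ext z
    simp [Fam]
  simp [this]

theorem DD_true : DD (fun _ _ => True) 1 := by
  have h := class_DD 1 one_pos 0 0
  have e : 1 / ((1 : ℕ) : ℝ) ^ 2 = 1 := by norm_num
  rw [e] at h
  refine h.congr fun x y _ => ?_
  simp

theorem DD.diff (hP : DD P d) (hQ : DD Q d') (hPQ : ∀ x y, D x y ≠ 0 → Q x y → P x y) :
    DD (fun x y => P x y ∧ ¬ Q x y) (d - d') := by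
  intro θ A h1 h2 hA
  rw [mul_sub]
  refine ((hP θ A h1 h2 hA).sub (hQ θ A h1 h2 hA)).congr fun Y => ?_
  have h1 : Fam P Y (A * Y ^ θ) = Fam Q Y (A * Y ^ θ) ∪
      Fam (fun x y => P x y ∧ ¬ Q x y) Y (A * Y ^ θ) := by
    ext z
    simp only [Fam, Set.mem_ofPred_eq, Set.mem_union]
    have := hPQ z.1 z.2
    tauto
  rw [h1, Set.ncard_union_eq _ (fam_finite _ _ _) (fam_finite _ _ _)]
  · push_cast
    ring
  · rw [Set.disjoint_left]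
    rintro z h1 h2
    exact h2.2.2.2.2 h1.2.2.2

theorem DD.unique (h : DD P d) (h' : DD P d') : d = d' :=
  mul_left_cancel₀ c0_pos.ne' (tendsto_nhds_unique (h 1 1 (by norm_num) (by norm_num) one_pos)
    (h' 1 1 (by norm_num) (by norm_num) one_pos))

theorem DD.nonneg (h : DD P d) : 0 ≤ d := by
  have h1 : 0 ≤ c0 * d := ge_of_tendsto' (h 1 1 (by norm_num) (by norm_num) one_pos) fun Y => by
    rcases le_or_gt 0 Y with hY | hY
    · exact div_nonneg (Nat.cast_nonneg _) (Real.rpow_nonneg hY _)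
    · have : Fam P Y (1 * Y ^ (1 : ℝ)) = ∅ := by
        ext z
        simp only [Fam, Set.mem_ofPred_eq, Set.mem_empty_iff_false, iff_false]
        rintro ⟨_, _, h3, _⟩
        have := abs_nonneg (D z.1 z.2 : ℝ)
        linarith
      rw [this]
      simp
  exact nonneg_of_mul_nonneg_right h1 c0_pos

theorem classZ_DD (M : ℕ) [NeZero M] (r s : ZMod M) :
    DD (fun x y => (x : ZMod M) = r ∧ (y : ZMod M) = s) (1 / (M : ℝ) ^ 2) := by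
  obtain ⟨r, rfl⟩ := ZMod.intCast_surjective r
  obtain ⟨s, rfl⟩ := ZMod.intCast_surjective s
  refine (class_DD M (NeZero.pos M) r s).congr fun x y _ => ?_
  rw [eq_comm (a := ((x : ℤ) : ZMod M)), ZMod.intCast_eq_intCast_iff_dvd_sub,
    eq_comm (a := ((y : ℤ) : ZMod M)), ZMod.intCast_eq_intCast_iff_dvd_sub]

theorem per_DD {M : ℕ} [NeZero M] {P : ℤ → ℤ → Prop}
    {T : Finset (ZMod M × ZMod M)} (h : Per M P T) : DD P (T.card / (M : ℝ) ^ 2) := by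
  classical
  have key : ∀ T : Finset (ZMod M × ZMod M),
      DD (fun x y => ((x : ZMod M), (y : ZMod M)) ∈ T) (T.card / (M : ℝ) ^ 2) := by
    intro T
    induction T using Finset.induction_on with
    | empty =>
      have := DD_false
      simpa using this
    | insert a T ha ih =>
      have h1 := (classZ_DD M a.1 a.2).add ih (by
        rintro x y ⟨h1, h2⟩ h3
        rw [h1, h2] at h3
        exact ha h3)
      rw [Finset.card_insert_of_notMem ha]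
      have e1 : 1 / (M : ℝ) ^ 2 + T.card / (M : ℝ) ^ 2 = ((T.card + 1 : ℕ) : ℝ) / (M : ℝ) ^ 2 := by
        push_cast
        ring
      rw [e1] at h1
      refine h1.congr fun x y _ => ?_
      rw [Finset.mem_insert, Prod.ext_iff]
  exact (key T).congr fun x y _ => (h x y).symm

theorem per_DD' {M : ℕ} [NeZero M] {P : ℤ → ℤ → Prop}
    {T : Finset (ZMod M × ZMod M)} (h : Per M P T) (hd : HasDens P d) : DD P d := by
  rw [hd.unique (Pool.Agent.H828_AC.per_dens h)]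
  exact per_DD h

/-- the truncated region -/
theorem trunc : ∃ C : ℝ, 0 < C ∧ ∀ M : ℝ, 1 ≤ M → ∀ᶠ Y : ℝ in atTop,
    |((Fam (fun _ _ => True) Y (M * Y ^ ((1 : ℝ) / 3))).ncard : ℝ) - c0 * Y ^ ((5 : ℝ) / 6)| ≤
      C / √M * Y ^ ((5 : ℝ) / 6) := by
  obtain ⟨C, hC, h⟩ := MP.asymp (1 / 100) (by norm_num)
  refine ⟨433 * C, by positivity, ?_⟩
  intro M hM
  have hM0 : 0 < M := by linarith
  have hsM : 0 < √M := Real.sqrt_pos.2 hM0
  -- the error terms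
  have t1 : Tendsto (fun Y : ℝ => (432 : ℝ) ^ (7 / 9 + 1 / 100 : ℝ) * Y ^ (-(5 / 6 - 7 / 9 - 1 / 100) : ℝ)
      + (432 : ℝ) ^ ((1 : ℝ) / 6) * (12 * M) ^ (1 / 4 + 1 / 100 : ℝ) *
        Y ^ (-(5 / 6 - 1 / 6 - 1 / 3 * (1 / 4 + 1 / 100)) : ℝ)) atTop (𝓝 0) := by
    have p1 := (tendsto_rpow_neg_atTop (y := (5 / 6 - 7 / 9 - 1 / 100 : ℝ)) (by norm_num)).const_mul
      ((432 : ℝ) ^ (7 / 9 + 1 / 100 : ℝ))
    have p2 := (tendsto_rpow_neg_atTop (y := (5 / 6 - 1 / 6 - 1 / 3 * (1 / 4 + 1 / 100) : ℝ))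
      (by norm_num)).const_mul ((432 : ℝ) ^ ((1 : ℝ) / 6) * (12 * M) ^ (1 / 4 + 1 / 100 : ℝ))
    have := p1.add p2
    simpa using this
  filter_upwards [t1.eventually (gt_mem_nhds (show (0 : ℝ) < 1 / √M by positivity)),
    eventually_ge_atTop 1] with Y hY1 hY
  have hY0 : 0 < Y := by linarith
  have hp : 0 < Y ^ ((5 : ℝ) / 6) := Real.rpow_pos_of_pos hY0 _
  have h13 : 0 < Y ^ ((1 : ℝ) / 3) := Real.rpow_pos_of_pos hY0 _
  have hcond : (432 * Y) ^ ((1 : ℝ) / 3) ≤ 12 * (M * Y ^ ((1 : ℝ) / 3)) := by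
    rw [Real.mul_rpow (by norm_num) hY0.le]
    have e1 : (432 : ℝ) ^ ((1 : ℝ) / 3) ≤ 12 := by
      calc (432 : ℝ) ^ ((1 : ℝ) / 3) ≤ (12 ^ (3 : ℝ)) ^ ((1 : ℝ) / 3) :=
            Real.rpow_le_rpow (by norm_num) (by norm_num) (by norm_num)
        _ = 12 := by
            rw [← Real.rpow_mul (by norm_num)]
            norm_num
    have : 12 * (M * Y ^ ((1 : ℝ) / 3)) = (12 * M) * Y ^ ((1 : ℝ) / 3) := by ring
    rw [this]
    refine mul_le_mul_of_nonneg_right ?_ h13.le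
    linarith
  have h2 := h (432 * Y) (12 * (M * Y ^ ((1 : ℝ) / 3))) (by linarith) hcond 0 12 0 108
    (by norm_num) (by norm_num)
  have h3 := class_ncard 1 0 0 Y (M * Y ^ ((1 : ℝ) / 3))
  have h4 : Fam (fun x y => ((1 : ℕ) : ℤ) ∣ x - 0 ∧ ((1 : ℕ) : ℤ) ∣ y - 0) Y (M * Y ^ ((1 : ℝ) / 3))
      = Fam (fun _ _ => True) Y (M * Y ^ ((1 : ℝ) / 3)) := by
    ext z
    simp [Fam]
  rw [h4] at h3
  simp only [mul_zero, Nat.cast_one, mul_one] at h3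
  rw [h3]
  have e2 : MP.c * (432 * Y) ^ ((5 : ℝ) / 6) / (((12 : ℤ) : ℝ) * ((108 : ℤ) : ℝ)) =
      c0 * Y ^ ((5 : ℝ) / 6) := by
    rw [Real.mul_rpow (by norm_num) hY0.le]
    unfold c0
    push_cast
    ring
  rw [e2] at h2
  refine h2.trans ?_
  have e3 : (432 * Y) ^ (7 / 9 + 1 / 100 : ℝ) = (432 : ℝ) ^ (7 / 9 + 1 / 100 : ℝ) *
      Y ^ (-(5 / 6 - 7 / 9 - 1 / 100) : ℝ) * Y ^ ((5 : ℝ) / 6) := by
    rw [Real.mul_rpow (by norm_num) hY0.le, mul_assoc, ← Real.rpow_add hY0]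
    norm_num
  have e4 : (432 * Y) ^ ((1 : ℝ) / 6) * (12 * (M * Y ^ ((1 : ℝ) / 3))) ^ (1 / 4 + 1 / 100 : ℝ) =
      (432 : ℝ) ^ ((1 : ℝ) / 6) * (12 * M) ^ (1 / 4 + 1 / 100 : ℝ) *
        Y ^ (-(5 / 6 - 1 / 6 - 1 / 3 * (1 / 4 + 1 / 100)) : ℝ) * Y ^ ((5 : ℝ) / 6) := by
    rw [← mul_assoc 12 M, Real.mul_rpow (by norm_num) hY0.le,
      Real.mul_rpow (by positivity) h13.le, ← Real.rpow_mul hY0.le,
      mul_assoc (_ * _) (Y ^ _) (Y ^ _), ← Real.rpow_add hY0]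
    have : Y ^ ((1 : ℝ) / 6) * Y ^ (1 / 3 * (1 / 4 + 1 / 100) : ℝ) =
        Y ^ (-(5 / 6 - 1 / 6 - 1 / 3 * (1 / 4 + 1 / 100)) + 5 / 6 : ℝ) := by
      rw [← Real.rpow_add hY0]
      congr 1
      norm_num
    rw [← this]
    ring
  have e5 : 432 * Y / √(12 * (M * Y ^ ((1 : ℝ) / 3))) ≤ 432 * (1 / √M) * Y ^ ((5 : ℝ) / 6) := by
    have e6 : √(Y ^ ((1 : ℝ) / 3)) = Y ^ ((1 : ℝ) / 6) := by
      rw [Real.sqrt_eq_rpow, ← Real.rpow_mul hY0.le]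
      norm_num
    have h16 : 0 < Y ^ ((1 : ℝ) / 6) := Real.rpow_pos_of_pos hY0 _
    have e7 : Y = Y ^ ((5 : ℝ) / 6) * Y ^ ((1 : ℝ) / 6) := by
      rw [← Real.rpow_add hY0]
      norm_num
    rw [← mul_assoc 12 M, Real.sqrt_mul (by positivity), e6, Real.sqrt_mul (by norm_num)]
    have h12 : 1 ≤ √(12 : ℝ) := Real.one_le_sqrt.2 (by norm_num)
    rw [div_le_iff₀ (by positivity)]
    have e8 : 432 * (1 / √M) * Y ^ ((5 : ℝ) / 6) * (√12 * √M * Y ^ ((1 : ℝ) / 6)) =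
        432 * √12 * (Y ^ ((5 : ℝ) / 6) * Y ^ ((1 : ℝ) / 6)) := by
      field_simp
    rw [e8, ← e7]
    nlinarith
  rw [e3, e4]
  have h5 := mul_le_mul_of_nonneg_right hY1.le hp.le
  have e9 : 433 * C / √M * Y ^ ((5 : ℝ) / 6) =
      C * (1 / √M * Y ^ ((5 : ℝ) / 6) + 432 * (1 / √M) * Y ^ ((5 : ℝ) / 6)) := by
    field_simp
    norm_num
  rw [e9]
  refine mul_le_mul_of_nonneg_left ?_ hC.le
  rw [add_mul] at h5
  linarith

/-- the tail -/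
theorem tail_bound : ∃ C : ℝ, 0 < C ∧ ∀ M : ℝ, 1 ≤ M → ∀ θ A : ℝ, 1 / 3 < θ → θ < 8 / 3 → 0 < A →
    ∀ᶠ Y : ℝ in atTop,
    ((Fam (fun x _ => M * Y ^ ((1 : ℝ) / 3) < |(x : ℝ)|) Y (A * Y ^ θ)).ncard : ℝ) ≤
      C / √M * Y ^ ((5 : ℝ) / 6) := by
  obtain ⟨C, hC, h⟩ := trunc
  refine ⟨C + 1, by positivity, ?_⟩
  intro M hM θ A h1 h2 hA
  have hM0 : 0 < M := by linarith
  have hsM : 0 < √M := Real.sqrt_pos.2 hM0
  have L := DD_true θ A h1 h2 hA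
  rw [mul_one] at L
  have ev : ∀ᶠ Y : ℝ in atTop, M / A ≤ Y ^ (θ - 1 / 3) :=
    (tendsto_rpow_atTop (by linarith : 0 < θ - 1 / 3)).eventually_ge_atTop _
  filter_upwards [h M hM, L.eventually (gt_mem_nhds (show c0 < c0 + 1 / √M by
    have : 0 < 1 / √M := by positivity
    linarith)), ev, eventually_ge_atTop 1] with Y hY1 hY2 hY3 hY
  have hY0 : 0 < Y := by linarith
  have hp : 0 < Y ^ ((5 : ℝ) / 6) := Real.rpow_pos_of_pos hY0 _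
  have hle : M * Y ^ ((1 : ℝ) / 3) ≤ A * Y ^ θ := by
    have e : Y ^ θ = Y ^ (θ - 1 / 3) * Y ^ ((1 : ℝ) / 3) := by
      rw [← Real.rpow_add hY0]; congr 1; ring
    rw [e, ← mul_assoc]
    refine mul_le_mul_of_nonneg_right ?_ (Real.rpow_nonneg hY0.le _)
    rwa [div_le_iff₀ hA, mul_comm] at hY3
  have hu : Fam (fun _ _ => True) Y (A * Y ^ θ) =
      Fam (fun _ _ => True) Y (M * Y ^ ((1 : ℝ) / 3)) ∪
      Fam (fun x _ => M * Y ^ ((1 : ℝ) / 3) < |(x : ℝ)|) Y (A * Y ^ θ) := by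
    ext z
    simp only [Fam, Set.mem_ofPred_eq, Set.mem_union]
    constructor
    · rintro ⟨g1, g2, g3, g4⟩
      rcases le_or_gt |(z.1 : ℝ)| (M * Y ^ ((1 : ℝ) / 3)) with g | g
      · exact Or.inl ⟨g, g2, g3, trivial⟩
      · exact Or.inr ⟨g1, g2, g3, g⟩
    · rintro (⟨g1, g2, g3, g4⟩ | ⟨g1, g2, g3, g4⟩)
      · exact ⟨g1.trans hle, g2, g3, trivial⟩
      · exact ⟨g1, g2, g3, trivial⟩
  have hd : Disjoint (Fam (fun _ _ => True) Y (M * Y ^ ((1 : ℝ) / 3)))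
      (Fam (fun x _ => M * Y ^ ((1 : ℝ) / 3) < |(x : ℝ)|) Y (A * Y ^ θ)) := by
    rw [Set.disjoint_left]
    rintro z g1 g2
    exact absurd g1.1 (not_le.2 g2.2.2.2)
  rw [hu, Set.ncard_union_eq hd (fam_finite _ _ _) (fam_finite _ _ _)] at hY2
  push_cast at hY2
  rw [div_lt_iff₀ hp] at hY2
  have h5 := (abs_le.1 hY1).1
  have e1 : (C + 1) / √M * Y ^ ((5 : ℝ) / 6) = C / √M * Y ^ ((5 : ℝ) / 6) +
      1 / √M * Y ^ ((5 : ℝ) / 6) := by ring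
  rw [e1]
  have e2 : (c0 + 1 / √M) * Y ^ ((5 : ℝ) / 6) = c0 * Y ^ ((5 : ℝ) / 6) +
      1 / √M * Y ^ ((5 : ℝ) / 6) := by ring
  rw [e2] at hY2
  linarith

theorem mem_reg {M Y : ℝ} (hM : 1 ≤ M) (hY : 0 ≤ Y) {z : ℤ × ℤ}
    (h1 : |(z.1 : ℝ)| ≤ M * Y ^ ((1 : ℝ) / 3)) (h3 : |(D z.1 z.2 : ℝ)| ≤ Y) :
    z ∈ Reg (5 * M ^ 3 * Y) := by
  have h4 : |(z.1 : ℝ)| ^ 3 ≤ M ^ 3 * Y := by
    have h5 := pow_le_pow_left₀ (abs_nonneg _) h1 3
    rw [mul_pow, ← Real.rpow_natCast (Y ^ ((1 : ℝ) / 3)), ← Real.rpow_mul hY] at h5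
    norm_num at h5
    exact h5
  have hM3 : 1 ≤ M ^ 3 := one_le_pow₀ hM
  refine ⟨by nlinarith, ?_⟩
  have h6 : ((D z.1 z.2 : ℤ) : ℝ) = 4 * (z.1 : ℝ) ^ 3 - 27 * (z.2 : ℝ) ^ 2 := by
    unfold D
    push_cast
    ring
  have h7 := (abs_le.1 h3).1
  rw [h6] at h7
  have h8 : (z.1 : ℝ) ^ 3 ≤ |(z.1 : ℝ)| ^ 3 := by
    rw [← abs_pow]
    exact le_abs_self _
  nlinarith

theorem scaled_eventually {p : ℝ → Prop} (h : ∀ᶠ X : ℝ in atTop, p X) {k : ℝ} (hk : 0 < k) :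
    ∀ᶠ Y : ℝ in atTop, p (k * Y) :=
  (tendsto_id.const_mul_atTop hk).eventually h

theorem double_lim' {G : ℝ → ℝ} {H : ℕ → ℝ → ℝ} {a : ℕ → ℝ} {l : ℝ}
    (h1 : ∀ n, Tendsto (H n) atTop (𝓝 (a n))) (h2 : Tendsto a atTop (𝓝 l))
    (h3 : ∀ ε : ℝ, 0 < ε → ∀ᶠ n : ℕ in atTop, ∀ᶠ X in atTop, |G X - H n X| ≤ ε) :
    Tendsto G atTop (𝓝 l) := by
  rw [Metric.tendsto_nhds]
  intro ε hε
  have h5 := (Metric.tendsto_nhds.1 h2) (ε / 3) (by positivity)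
  obtain ⟨n, h6, h8⟩ := ((h3 (ε / 4) (by positivity)).and h5).exists
  filter_upwards [h6, (Metric.tendsto_nhds.1 (h1 n)) (ε / 3) (by positivity)] with X h9 h10
  rw [Real.dist_eq] at *
  have h11 := abs_sub_le (G X) (H n X) l
  have h12 := abs_sub_le (H n X) (a n) l
  linarith

/-- given `ε`, a good truncation -/
theorem exists_trunc {C ε : ℝ} (hC : 0 < C) (hε : 0 < ε) : ∃ M : ℝ, 1 ≤ M ∧ C / √M ≤ ε := by
  refine ⟨1 + (C / ε) ^ 2, by nlinarith [sq_nonneg (C / ε)], ?_⟩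
  have h1 : C / ε ≤ √(1 + (C / ε) ^ 2) := by
    refine Real.le_sqrt_of_sq_le ?_
    linarith
  have h2 : 0 < C / ε := by positivity
  rw [div_le_iff₀ (lt_of_lt_of_le h2 h1)]
  rw [div_le_iff₀ hε] at h1
  linarith

/-- the sieve -/
theorem sieve {Q : ℤ → ℤ → Prop} {P : ℕ → ℤ → ℤ → Prop} {d : ℕ → ℝ} {l : ℝ}
    (hd : ∀ n, DD (P n) (d n)) (hl : Tendsto d atTop (𝓝 l))
    (h1 : ∀ᶠ n in atTop, ∀ x y, D x y ≠ 0 → Q x y → P n x y)
    (h2 : ∀ᶠ n in atTop, ∀ x y, D x y ≠ 0 → P n x y →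
      Q x y ∨ ∃ p : ℕ, p.Prime ∧ n ≤ p ∧ (p : ℤ) ^ 2 ∣ D x y) : DD Q l := by
  intro θ A g1 g2 hA
  refine double_lim' (H := fun n Y => ((Fam (P n) Y (A * Y ^ θ)).ncard : ℝ) / Y ^ ((5 : ℝ) / 6))
    (fun n => hd n θ A g1 g2 hA) (hl.const_mul c0) ?_
  intro ε hε
  obtain ⟨C, hC, htail⟩ := tail_bound
  obtain ⟨M, hM, hM2⟩ := exists_trunc hC (show 0 < ε / 2 by positivity)
  have hM0 : 0 < M := by linarith
  have hk : 0 < 5 * M ^ 3 := by positivity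
  have hkp : 0 < (5 * M ^ 3) ^ ((5 : ℝ) / 6) := Real.rpow_pos_of_pos hk _
  have ev : ∀ᶠ n : ℕ in atTop, 44 * (5 * M ^ 3) ^ ((5 : ℝ) / 6) / (n : ℝ) ≤ ε / 2 :=
    (tendsto_const_div_atTop_nhds_zero_nat _).eventually_le_const (by positivity)
  filter_upwards [h1, h2, ev, eventually_ge_atTop 5] with n h1 h2 hn2 hn
  filter_upwards [htail M hM θ A g1 g2 hA,
    scaled_eventually (bad_small (show 4 ≤ n - 1 by omega)) hk, eventually_ge_atTop 1]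
    with Y hY1 hb hY
  have hY0 : 0 < Y := by linarith
  have hp : 0 < Y ^ ((5 : ℝ) / 6) := Real.rpow_pos_of_pos hY0 _
  have h4 : (Fam Q Y (A * Y ^ θ)).ncard ≤ (Fam (P n) Y (A * Y ^ θ)).ncard :=
    Set.ncard_le_ncard (fam_mono le_rfl le_rfl h1) (fam_finite _ _ _)
  have hsub : Fam (P n) Y (A * Y ^ θ) ⊆ Fam Q Y (A * Y ^ θ) ∪
      (Bad (n - 1) (5 * M ^ 3 * Y) ∪
        Fam (fun x _ => M * Y ^ ((1 : ℝ) / 3) < |(x : ℝ)|) Y (A * Y ^ θ)) := by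
    rintro z ⟨b1, b2, b3, b4⟩
    rcases h2 _ _ b2 b4 with b5 | ⟨p, b5, b6, b7⟩
    · exact Or.inl ⟨b1, b2, b3, b5⟩
    · rcases le_or_gt |(z.1 : ℝ)| (M * Y ^ ((1 : ℝ) / 3)) with g | g
      · exact Or.inr (Or.inl ⟨mem_reg hM hY0.le g b3, p, b5, by omega, b7⟩)
      · exact Or.inr (Or.inr ⟨b1, b2, b3, g⟩)
  have h5 := (Set.ncard_le_ncard hsub ((fam_finite _ _ _).union ((bad_finite _ _).union
    (fam_finite _ _ _)))).trans ((Set.ncard_union_le _ _).trans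
      (Nat.add_le_add_left (Set.ncard_union_le _ _) _))
  have h4' : ((Fam Q Y (A * Y ^ θ)).ncard : ℝ) ≤ (Fam (P n) Y (A * Y ^ θ)).ncard := by
    exact_mod_cast h4
  have h5' : ((Fam (P n) Y (A * Y ^ θ)).ncard : ℝ) ≤ (Fam Q Y (A * Y ^ θ)).ncard +
      ((Bad (n - 1) (5 * M ^ 3 * Y)).ncard +
        (Fam (fun x _ => M * Y ^ ((1 : ℝ) / 3) < |(x : ℝ)|) Y (A * Y ^ θ)).ncard) := by
    exact_mod_cast h5
  rw [← sub_div, abs_div, abs_of_pos hp, abs_sub_comm, abs_of_nonneg (by linarith),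
    div_le_iff₀ hp]
  have hn' : (5 : ℝ) ≤ n := by exact_mod_cast hn
  have h6 : ((Bad (n - 1) (5 * M ^ 3 * Y)).ncard : ℝ) ≤ ε / 2 * Y ^ ((5 : ℝ) / 6) := by
    rw [div_le_iff₀ (Real.rpow_pos_of_pos (by positivity) _)] at hb
    refine hb.trans ?_
    rw [Real.mul_rpow hk.le hY0.le, ← mul_assoc]
    refine mul_le_mul_of_nonneg_right ?_ hp.le
    refine le_trans ?_ hn2
    rw [Nat.cast_sub (by omega), Nat.cast_one, div_mul_eq_mul_div,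
      div_le_div_iff₀ (by linarith) (by linarith)]
    nlinarith
  have h7 : C / √M * Y ^ ((5 : ℝ) / 6) ≤ ε / 2 * Y ^ ((5 : ℝ) / 6) :=
    mul_le_mul_of_nonneg_right hM2 hp.le
  linarith

/-- density zero -/
theorem DD_zero_of {Q : ℤ → ℤ → Prop} (h : HasDens Q 0) : DD Q 0 := by
  intro θ A g1 g2 hA
  rw [mul_zero, Metric.tendsto_nhds]
  intro ε hε
  obtain ⟨C, hC, htail⟩ := tail_bound
  obtain ⟨M, hM, hM2⟩ := exists_trunc hC (show 0 < ε / 3 by positivity)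
  have hM0 : 0 < M := by linarith
  have hk : 0 < 5 * M ^ 3 := by positivity
  have hkp : 0 < (5 * M ^ 3) ^ ((5 : ℝ) / 6) := Real.rpow_pos_of_pos hk _
  unfold HasDens at h
  rw [mul_zero] at h
  filter_upwards [htail M hM θ A g1 g2 hA, scaled_eventually
    (h.eventually (gt_mem_nhds (show 0 < ε / 3 / (5 * M ^ 3) ^ ((5 : ℝ) / 6) by positivity))) hk,
    eventually_ge_atTop 1] with Y hY1 hb hY
  have hY0 : 0 < Y := by linarith
  have hp : 0 < Y ^ ((5 : ℝ) / 6) := Real.rpow_pos_of_pos hY0 _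
  have hsub : Fam Q Y (A * Y ^ θ) ⊆ Cut Q (5 * M ^ 3 * Y) ∪
        Fam (fun x _ => M * Y ^ ((1 : ℝ) / 3) < |(x : ℝ)|) Y (A * Y ^ θ) := by
    rintro z ⟨b1, b2, b3, b4⟩
    rcases le_or_gt |(z.1 : ℝ)| (M * Y ^ ((1 : ℝ) / 3)) with g | g
    · exact Or.inl ⟨mem_reg hM hY0.le g b3, b4⟩
    · exact Or.inr ⟨b1, b2, b3, g⟩
  have h5 := (Set.ncard_le_ncard hsub ((cut_finite _ _).union (fam_finite _ _ _))).trans
    (Set.ncard_union_le _ _)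
  have h5' : ((Fam Q Y (A * Y ^ θ)).ncard : ℝ) ≤ (Cut Q (5 * M ^ 3 * Y)).ncard +
        (Fam (fun x _ => M * Y ^ ((1 : ℝ) / 3) < |(x : ℝ)|) Y (A * Y ^ θ)).ncard := by
    exact_mod_cast h5
  rw [Real.dist_eq, sub_zero, abs_of_nonneg (by positivity), div_lt_iff₀ hp]
  have h6 : ((Cut Q (5 * M ^ 3 * Y)).ncard : ℝ) ≤ ε / 3 * Y ^ ((5 : ℝ) / 6) := by
    rw [div_lt_iff₀ (Real.rpow_pos_of_pos (by positivity) _), Real.mul_rpow hk.le hY0.le,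
      ← mul_assoc, div_mul_cancel₀ _ hkp.ne'] at hb
    exact hb.le
  have h7 : C / √M * Y ^ ((5 : ℝ) / 6) ≤ ε / 3 * Y ^ ((5 : ℝ) / 6) :=
    mul_le_mul_of_nonneg_right hM2 hp.le
  nlinarith

end Pool.Agent.H460.EC
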