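import Pool.Agent.H460.EC.HH

/-! Uniform upper bounds for the number of curves with `|D| = t N₆`. -/

set_option autoImplicit false

namespace Pool.Agent.H460.EC

open Filter Topology
open Pool.Agent.H828_AC (D Reg Per HasDens mu lamq zeta10_bounds al wp ga C1 law mu_bounds
  zeta2_bounds per_dens C1_pos forall_dens)

theorem unif_class (θ : ℝ) (h1 : 1 / 3 < θ) (h2 : θ < 8 / 3) : ∃ δ C : ℝ, 0 < δ ∧ 0 < C ∧
    ∀ Y : ℝ, 1 ≤ Y → ∀ M : ℕ, 0 < M → ∀ r s : ℤ,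
    ((Fam (fun x y => (M : ℤ) ∣ x - r ∧ (M : ℤ) ∣ y - s) Y (Y ^ θ)).ncard : ℝ) ≤
      c0 * Y ^ ((5 : ℝ) / 6) / (M : ℝ) ^ 2 + C * (Y ^ ((5 : ℝ) / 6) * Y ^ (-δ)) := by
  set eps := min (1 / 60) ((8 / 3 - θ) / 24) with heps
  have he0 : 0 < eps := lt_min (by norm_num) (by linarith)
  have he1 : eps ≤ 1 / 60 := min_le_left _ _
  have he2 : eps ≤ (8 / 3 - θ) / 24 := min_le_right _ _
  obtain ⟨C, hC, h⟩ := MP.asymp eps he0
  have g1 : 0 < 5 / 6 - (7 / 9 + eps) := by linarith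
  have g2 : 0 < 5 / 6 - (1 / 6 + θ * (1 / 4 + eps)) := by nlinarith
  have g3 : 0 < 5 / 6 - (1 - θ / 2) := by linarith
  set δ := min (5 / 6 - (7 / 9 + eps)) (min (5 / 6 - (1 / 6 + θ * (1 / 4 + eps)))
    (5 / 6 - (1 - θ / 2))) with hδ
  have hδ0 : 0 < δ := lt_min g1 (lt_min g2 g3)
  have hδ1 : δ ≤ 5 / 6 - (7 / 9 + eps) := min_le_left _ _
  have hδ2 : δ ≤ 5 / 6 - (1 / 6 + θ * (1 / 4 + eps)) :=
    (min_le_right _ _).trans (min_le_left _ _)
  have hδ3 : δ ≤ 5 / 6 - (1 - θ / 2) := (min_le_right _ _).trans (min_le_right _ _)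
  refine ⟨δ, C * (432 + 432 * 12 + 432), hδ0, by positivity, ?_⟩
  intro Y hY M hM r s
  have hY0 : 0 < Y := by linarith
  have hM' : (0 : ℝ) < M := by exact_mod_cast hM
  have hp : 0 < Y ^ ((5 : ℝ) / 6) := Real.rpow_pos_of_pos hY0 _
  have hYδ : Y ^ ((5 : ℝ) / 6) * Y ^ (-δ) = Y ^ (5 / 6 - δ) := by
    rw [← Real.rpow_add hY0]
    ring_nf
  have hcond : (432 * Y) ^ ((1 : ℝ) / 3) ≤ 12 * Y ^ θ := by
    rw [Real.mul_rpow (by norm_num) hY0.le]
    have e1 : (432 : ℝ) ^ ((1 : ℝ) / 3) ≤ 12 := by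
      calc (432 : ℝ) ^ ((1 : ℝ) / 3) ≤ (12 ^ (3 : ℝ)) ^ ((1 : ℝ) / 3) :=
            Real.rpow_le_rpow (by norm_num) (by norm_num) (by norm_num)
        _ = 12 := by
            rw [← Real.rpow_mul (by norm_num)]
            norm_num
    exact mul_le_mul e1 (Real.rpow_le_rpow_of_exponent_le hY h1.le) (by positivity) (by norm_num)
  have h3 := h (432 * Y) (12 * Y ^ θ) (by linarith) hcond (12 * r) (12 * M) (108 * s) (108 * M)
    (by positivity) (by positivity)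
  rw [class_ncard]
  have e2 : MP.c * (432 * Y) ^ ((5 : ℝ) / 6) / (((12 * M : ℤ) : ℝ) * ((108 * M : ℤ) : ℝ)) =
      c0 * Y ^ ((5 : ℝ) / 6) / (M : ℝ) ^ 2 := by
    rw [Real.mul_rpow (by norm_num) hY0.le]
    unfold c0
    push_cast
    field_simp
    ring
  rw [e2] at h3
  have h4 := (abs_le.1 h3).2
  have hYθ1 : 1 ≤ Y ^ θ := Real.one_le_rpow hY (by linarith)
  have t1 : (432 * Y) ^ (7 / 9 + eps) ≤ 432 * Y ^ (5 / 6 - δ) := by
    rw [Real.mul_rpow (by norm_num) hY0.le]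
    refine mul_le_mul ?_ (Real.rpow_le_rpow_of_exponent_le hY (by linarith)) (by positivity)
      (by norm_num)
    calc (432 : ℝ) ^ (7 / 9 + eps) ≤ (432 : ℝ) ^ (1 : ℝ) :=
          Real.rpow_le_rpow_of_exponent_le (by norm_num) (by linarith)
      _ = 432 := Real.rpow_one _
  have t2 : (432 * Y) ^ ((1 : ℝ) / 6) * (12 * Y ^ θ) ^ (1 / 4 + eps) ≤
      432 * 12 * Y ^ (5 / 6 - δ) := by
    rw [Real.mul_rpow (by norm_num) hY0.le, Real.mul_rpow (by norm_num) (by positivity),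
      ← Real.rpow_mul hY0.le]
    have a1 : (432 : ℝ) ^ ((1 : ℝ) / 6) ≤ 432 := by
      calc (432 : ℝ) ^ ((1 : ℝ) / 6) ≤ (432 : ℝ) ^ (1 : ℝ) :=
            Real.rpow_le_rpow_of_exponent_le (by norm_num) (by norm_num)
        _ = 432 := Real.rpow_one _
    have a2 : (12 : ℝ) ^ (1 / 4 + eps) ≤ 12 := by
      calc (12 : ℝ) ^ (1 / 4 + eps) ≤ (12 : ℝ) ^ (1 : ℝ) :=
            Real.rpow_le_rpow_of_exponent_le (by norm_num) (by linarith)
        _ = 12 := Real.rpow_one _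
    have a3 : Y ^ ((1 : ℝ) / 6) * Y ^ (θ * (1 / 4 + eps)) ≤ Y ^ (5 / 6 - δ) := by
      rw [← Real.rpow_add hY0]
      exact Real.rpow_le_rpow_of_exponent_le hY (by linarith)
    calc (432 : ℝ) ^ ((1 : ℝ) / 6) * Y ^ ((1 : ℝ) / 6) *
          ((12 : ℝ) ^ (1 / 4 + eps) * Y ^ (θ * (1 / 4 + eps)))
        = (432 : ℝ) ^ ((1 : ℝ) / 6) * (12 : ℝ) ^ (1 / 4 + eps) *
          (Y ^ ((1 : ℝ) / 6) * Y ^ (θ * (1 / 4 + eps))) := by ring
      _ ≤ 432 * 12 * Y ^ (5 / 6 - δ) := by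
          refine mul_le_mul (mul_le_mul a1 a2 (by positivity) (by norm_num)) a3 (by positivity)
            (by norm_num)
  have t3 : 432 * Y / √(12 * Y ^ θ) ≤ 432 * Y ^ (5 / 6 - δ) := by
    have a1 : Y ^ (θ / 2) ≤ √(12 * Y ^ θ) := by
      refine Real.le_sqrt_of_sq_le ?_
      rw [← Real.rpow_natCast, ← Real.rpow_mul hY0.le]
      have : θ / 2 * ((2 : ℕ) : ℝ) = θ := by push_cast; ring
      rw [this]
      linarith
    have hp2 : 0 < Y ^ (θ / 2) := Real.rpow_pos_of_pos hY0 _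
    rw [div_le_iff₀ (lt_of_lt_of_le hp2 a1)]
    have a2 : Y ≤ Y ^ (5 / 6 - δ) * Y ^ (θ / 2) := by
      rw [← Real.rpow_add hY0]
      conv_lhs => rw [← Real.rpow_one Y]
      exact Real.rpow_le_rpow_of_exponent_le hY (by linarith)
    have hp3 : 0 < Y ^ (5 / 6 - δ) := Real.rpow_pos_of_pos hY0 _
    have a3 : Y ^ (5 / 6 - δ) * Y ^ (θ / 2) ≤ Y ^ (5 / 6 - δ) * √(12 * Y ^ θ) :=
      mul_le_mul_of_nonneg_left a1 hp3.le
    nlinarith
  rw [hYδ]
  have h5 : C * ((432 * Y) ^ (7 / 9 + eps) + (432 * Y) ^ ((1 : ℝ) / 6) *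
      (12 * Y ^ θ) ^ (1 / 4 + eps) + 432 * Y / √(12 * Y ^ θ)) ≤
      C * (432 + 432 * 12 + 432) * Y ^ (5 / 6 - δ) := by
    rw [mul_assoc]
    refine mul_le_mul_of_nonneg_left ?_ hC.le
    linarith
  linarith

theorem unif_per (θ : ℝ) (h1 : 1 / 3 < θ) (h2 : θ < 8 / 3) : ∃ δ C : ℝ, 0 < δ ∧ 0 < C ∧
    ∀ (M : ℕ) [NeZero M] (P : ℤ → ℤ → Prop) (S : Finset (ZMod M × ZMod M)), Per M P S →
    ∀ d : ℝ, HasDens P d → ∀ Y : ℝ, 1 ≤ Y → (M : ℝ) ≤ Y ^ δ →
    ((Fam P Y (Y ^ θ)).ncard : ℝ) ≤ C * d * Y ^ ((5 : ℝ) / 6) := by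
  obtain ⟨δ, C, hδ, hC, h⟩ := unif_class θ h1 h2
  refine ⟨δ / 2, c0 + C, by positivity, by have := c0_pos; positivity, ?_⟩
  intro M _ P S hP d hd Y hY hM
  classical
  have hY0 : 0 < Y := by linarith
  have hM0 : 0 < M := Nat.pos_of_ne_zero (NeZero.ne M)
  have hM' : (0 : ℝ) < M := by exact_mod_cast hM0
  let R := (fam_finite (fun _ _ => True) Y (Y ^ θ)).toFinset
  have hv : ∀ x : ℤ, (M : ℤ) ∣ x - (((x : ZMod M).val : ℕ) : ℤ) := by
    intro x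
    rw [← ZMod.intCast_zmod_eq_zero_iff_dvd]
    push_cast
    rw [ZMod.natCast_zmod_val, sub_self]
  have hsub : Fam P Y (Y ^ θ) ⊆
      ((S.biUnion fun t => R.filter fun z => (M : ℤ) ∣ z.1 - ((t.1.val : ℕ) : ℤ) ∧
        (M : ℤ) ∣ z.2 - ((t.2.val : ℕ) : ℤ) : Finset (ℤ × ℤ)) : Set (ℤ × ℤ)) := by
    rintro z ⟨b1, b2, b3, b4⟩
    simp only [Finset.mem_coe, Finset.mem_biUnion, Finset.mem_filter]
    refine ⟨_, (hP z.1 z.2).1 b4, ?_, hv _, hv _⟩
    simp only [R, Set.Finite.mem_toFinset]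
    exact ⟨b1, b2, b3, trivial⟩
  have h3 := Set.ncard_le_ncard hsub (Finset.finite_toSet _)
  rw [Set.ncard_coe_finset] at h3
  have h4 := h3.trans Finset.card_biUnion_le
  have h5 : ∀ t ∈ S, ((R.filter fun z => (M : ℤ) ∣ z.1 - ((t.1.val : ℕ) : ℤ) ∧
        (M : ℤ) ∣ z.2 - ((t.2.val : ℕ) : ℤ)).card : ℝ) ≤
      c0 * Y ^ ((5 : ℝ) / 6) / (M : ℝ) ^ 2 + C * (Y ^ ((5 : ℝ) / 6) * Y ^ (-δ)) := by
    intro t _
    refine le_trans (le_of_eq ?_) (h Y hY M hM0 ((t.1.val : ℕ) : ℤ) ((t.2.val : ℕ) : ℤ))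
    rw [← Set.ncard_coe_finset]
    congr 2
    ext z
    rw [Finset.mem_coe, Finset.mem_filter, Set.Finite.mem_toFinset]
    constructor
    · rintro ⟨⟨b1, b2, b3, _⟩, b4⟩
      exact ⟨b1, b2, b3, b4⟩
    · rintro ⟨b1, b2, b3, b4⟩
      exact ⟨⟨b1, b2, b3, trivial⟩, b4⟩
  have h6 : ((Fam P Y (Y ^ θ)).ncard : ℝ) ≤
      S.card * (c0 * Y ^ ((5 : ℝ) / 6) / (M : ℝ) ^ 2 + C * (Y ^ ((5 : ℝ) / 6) * Y ^ (-δ))) := by
    calc ((Fam P Y (Y ^ θ)).ncard : ℝ) ≤ ∑ t ∈ S, ((R.filter fun z =>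
          (M : ℤ) ∣ z.1 - ((t.1.val : ℕ) : ℤ) ∧ (M : ℤ) ∣ z.2 - ((t.2.val : ℕ) : ℤ)).card : ℝ) := by
          exact_mod_cast h4
      _ ≤ ∑ t ∈ S, (c0 * Y ^ ((5 : ℝ) / 6) / (M : ℝ) ^ 2 +
            C * (Y ^ ((5 : ℝ) / 6) * Y ^ (-δ))) := Finset.sum_le_sum h5
      _ = _ := by rw [Finset.sum_const, nsmul_eq_mul]
  have h7 := hd.unique (per_dens hP)
  have hM2' : (M : ℝ) ^ 2 ≠ 0 := (pow_pos hM' 2).ne'
  have h8 : (S.card : ℝ) = d * (M : ℝ) ^ 2 := by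
    rw [h7, div_mul_cancel₀ _ hM2']
  rw [h8] at h6
  refine h6.trans ?_
  have hd0 : 0 ≤ d := Pool.Agent.H828_AC.dens_nonneg hd
  have h9 : (M : ℝ) ^ 2 * Y ^ (-δ) ≤ 1 := by
    have h10 := pow_le_pow_left₀ hM'.le hM 2
    have h11 : (Y ^ (δ / 2)) ^ 2 = Y ^ δ := by
      rw [← Real.rpow_natCast, ← Real.rpow_mul hY0.le]
      congr 1
      push_cast
      ring
    rw [h11] at h10
    rw [Real.rpow_neg hY0.le]
    have h12 : 0 < Y ^ δ := Real.rpow_pos_of_pos hY0 _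
    rw [← div_eq_mul_inv, div_le_one h12]
    exact h10
  have e1 : d * (M : ℝ) ^ 2 * (c0 * Y ^ ((5 : ℝ) / 6) / (M : ℝ) ^ 2 +
      C * (Y ^ ((5 : ℝ) / 6) * Y ^ (-δ))) =
      d * (c0 * Y ^ ((5 : ℝ) / 6)) + d * (C * Y ^ ((5 : ℝ) / 6)) * ((M : ℝ) ^ 2 * Y ^ (-δ)) := by
    have e0 : (M : ℝ) ^ 2 * (c0 * Y ^ ((5 : ℝ) / 6) / (M : ℝ) ^ 2) = c0 * Y ^ ((5 : ℝ) / 6) :=
      mul_div_cancel₀ _ hM2'
    rw [mul_add, mul_assoc d, e0]
    ring
  rw [e1]
  have hp : 0 < Y ^ ((5 : ℝ) / 6) := Real.rpow_pos_of_pos hY0 _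
  have h13 : d * (C * Y ^ ((5 : ℝ) / 6)) * ((M : ℝ) ^ 2 * Y ^ (-δ)) ≤
      d * (C * Y ^ ((5 : ℝ) / 6)) * 1 := mul_le_mul_of_nonneg_left h9 (by positivity)
  nlinarith

theorem m6_primeFactors {t : ℕ} (ht : t ≠ 0) :
    (m6 t).primeFactors = (6 * t).primeFactors.filter (fun p => 5 ≤ p) := by
  ext p
  have h6t : 6 * t ≠ 0 := by omega
  rw [Finset.mem_filter]
  constructor
  · intro hp
    have h1 := Nat.prime_of_mem_primeFactors hp
    have h2 := h1.factorization_pos_of_dvd (m6_pos t).ne' (Nat.dvd_of_mem_primeFactors hp)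
    rw [m6_fact] at h2
    split_ifs at h2 with h5
    · refine ⟨?_, h5⟩
      have h3 : p ∣ t := Nat.dvd_of_factorization_pos h2.ne'
      exact Nat.mem_primeFactors.2 ⟨h1, h3.mul_left _, h6t⟩
    · exact absurd h2 (lt_irrefl _)
  · rintro ⟨hp, h5⟩
    have h1 := Nat.prime_of_mem_primeFactors hp
    have h2 := Nat.dvd_of_mem_primeFactors hp
    have h3 : p ∣ t := by
      rcases h1.dvd_mul.1 h2 with h | h
      · exfalso
        have h4 := Nat.le_of_dvd (by norm_num) h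
        have : p = 5 ∨ p = 6 := by omega
        rcases this with rfl | rfl
        · norm_num at h
        · norm_num at h1
      · exact h
    have h4 := h1.factorization_pos_of_dvd ht h3
    refine Nat.mem_primeFactors.2 ⟨h1, Nat.dvd_of_factorization_pos (?_ : _ ≠ 0), (m6_pos t).ne'⟩
    rw [m6_fact, if_pos h5]
    exact h4.ne'

theorem dens_le {t : ℕ} (ht : t ≠ 0) :
    ∏ p ∈ (6 * t).primeFactors, ff p (t.factorization p) ≤ e t / C1 := by
  classical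
  have h6t : 6 * t ≠ 0 := by omega
  have h2 : 2 ∈ (6 * t).primeFactors :=
    Nat.mem_primeFactors.2 ⟨Nat.prime_two, ⟨3 * t, by ring⟩, h6t⟩
  have h3 : 3 ∈ ((6 * t).primeFactors).erase 2 :=
    Finset.mem_erase.2 ⟨by norm_num, Nat.mem_primeFactors.2 ⟨Nat.prime_three, ⟨2 * t, by ring⟩, h6t⟩⟩
  rw [← Finset.mul_prod_erase _ _ h2, ← Finset.mul_prod_erase _ _ h3]
  have hset : (((6 * t).primeFactors).erase 2).erase 3 = (m6 t).primeFactors := by
    rw [m6_primeFactors ht]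
    ext p
    simp only [Finset.mem_erase, Finset.mem_filter]
    constructor
    · rintro ⟨b1, b2, b3⟩
      refine ⟨b3, ?_⟩
      have hp := Nat.prime_of_mem_primeFactors b3
      have := hp.two_le
      have h4 : p ≠ 4 := by
        rintro rfl
        exact absurd hp (by norm_num)
      omega
    · rintro ⟨b1, b2⟩
      exact ⟨by omega, by omega, b1⟩
  rw [hset]
  have hq : ∀ q : ℕ, q.Prime → ¬ 5 ≤ q → 0 ≤ ff q (t.factorization q) ∧
      ff q (t.factorization q) ≤ ae q (t.factorization q) := by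
    intro q hq h5
    have h6 := zeta10_bounds (p := q) hq.two_le
    have e1 : ff q (t.factorization q) = ae q (t.factorization q) * (1 - 1 / (q : ℝ) ^ 10) := by
      unfold ff ae al
      rw [if_neg h5]
      field_simp
    have h7 : 0 ≤ ff q (t.factorization q) := Pool.Agent.H828_AC.dens_nonneg (FF_dens hq _)
    refine ⟨h7, ?_⟩
    rw [e1] at h7 ⊢
    have h8 : 0 ≤ ae q (t.factorization q) := nonneg_of_mul_nonneg_left h7 h6
    have h9 : 1 - 1 / (q : ℝ) ^ 10 ≤ 1 := by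
      have : 0 ≤ 1 / (q : ℝ) ^ 10 := by positivity
      linarith
    nlinarith
  have hrest : ∏ p ∈ (m6 t).primeFactors, ff p (t.factorization p) ≤ ga (m6 t) := by
    unfold ga
    rw [if_pos (m6_coprime t)]
    refine Finset.prod_le_prod (fun p hp => ?_) fun p hp => ?_
    · exact Pool.Agent.H828_AC.dens_nonneg (FF_dens (Nat.prime_of_mem_primeFactors hp) _)
    · have h5 : 5 ≤ p := by
        rw [m6_primeFactors ht] at hp
        exact (Finset.mem_filter.1 hp).2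
      have hpp := Nat.prime_of_mem_primeFactors hp
      unfold ff wp
      rw [if_pos h5, m6_fact, if_pos h5]
      have h6 := zeta2_bounds hpp.two_le
      have h7 := (mu_bounds hpp.two_le (t.factorization p)).1
      rw [le_div_iff₀ (by linarith)]
      have h8 : 0 ≤ 1 / (p : ℝ) ^ 2 := by positivity
      nlinarith
  have hr0 : 0 ≤ ∏ p ∈ (m6 t).primeFactors, ff p (t.factorization p) :=
    Finset.prod_nonneg fun p hp =>
      Pool.Agent.H828_AC.dens_nonneg (FF_dens (Nat.prime_of_mem_primeFactors hp) _)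
  obtain ⟨a1, a2⟩ := hq 2 Nat.prime_two (by norm_num)
  obtain ⟨b1, b2⟩ := hq 3 Nat.prime_three (by norm_num)
  have e1 : e t / C1 = ae 2 (t.factorization 2) * (ae 3 (t.factorization 3) * ga (m6 t)) := by
    unfold e law
    rw [if_neg ht]
    have := C1_pos.ne'
    field_simp
  rw [e1]
  exact mul_le_mul a2 (mul_le_mul b2 hrest hr0 (b1.trans b2)) (mul_nonneg b1 hr0) (a1.trans a2)

/-- uniform bound for the curves with `|D| = t N₆` -/
theorem T_upper (θ : ℝ) (h1 : 1 / 3 < θ) (h2 : θ < 8 / 3) : ∃ δ C Y0 : ℝ, 0 < δ ∧ 0 < C ∧ 1 ≤ Y0 ∧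
    ∀ Y : ℝ, Y0 ≤ Y → ∀ t : ℕ, t ≠ 0 → (t : ℝ) ≤ Y ^ δ →
    ((Fam (T t) Y (Y ^ θ)).ncard : ℝ) ≤ C * e t * Y ^ ((5 : ℝ) / 6) := by
  obtain ⟨δ, C, hδ, hC, h⟩ := unif_per θ h1 h2
  have hC1 := C1_pos
  refine ⟨δ / 16, C / C1, ((6 : ℝ) ^ 8) ^ (2 / δ), by positivity, by positivity,
    Real.one_le_rpow (by norm_num) (by positivity), ?_⟩
  intro Y hY t ht htY
  have hY1 : 1 ≤ Y := (Real.one_le_rpow (by norm_num) (by positivity)).trans hY
  have hY0 : 0 < Y := by linarith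
  have h6t : 6 * t ≠ 0 := by omega
  have hS : ∀ p ∈ (6 * t).primeFactors, p.Prime := fun p hp => Nat.prime_of_mem_primeFactors hp
  obtain ⟨⟨S, hT⟩, hdens⟩ := forall_dens (6 * t).primeFactors (fun p => FF p (t.factorization p))
    (fun p => t.factorization p + 7) (fun p => ff p (t.factorization p)) hS
    (fun p hp => FF_per (hS p hp) _) fun p hp => FF_dens (hS p hp) _
  have hne : NeZero (∏ p ∈ (6 * t).primeFactors, p ^ (t.factorization p + 7)) :=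
    ⟨Finset.prod_ne_zero_iff.2 fun p hp => pow_ne_zero _ (hS p hp).ne_zero⟩
  have hM : (∏ p ∈ (6 * t).primeFactors, p ^ (t.factorization p + 7)) ≤ (6 * t) ^ 8 := by
    conv_rhs => rw [← Nat.prod_factorization_pow_eq_self h6t]
    rw [Finsupp.prod, ← Finset.prod_pow, Nat.support_factorization]
    refine Finset.prod_le_prod' fun p hp => ?_
    rw [← pow_mul]
    refine Nat.pow_le_pow_right (hS p hp).pos ?_
    have g1 := (hS p hp).factorization_pos_of_dvd h6t (Nat.dvd_of_mem_primeFactors hp)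
    have g2 : (6 * t).factorization p = (6 : ℕ).factorization p + t.factorization p := by
      rw [Nat.factorization_mul (by norm_num) ht, Finsupp.add_apply]
    omega
  have hM2 : ((∏ p ∈ (6 * t).primeFactors, p ^ (t.factorization p + 7) : ℕ) : ℝ) ≤ Y ^ δ := by
    have g1 : ((∏ p ∈ (6 * t).primeFactors, p ^ (t.factorization p + 7) : ℕ) : ℝ) ≤
        (((6 * t) ^ 8 : ℕ) : ℝ) := by exact_mod_cast hM
    refine g1.trans ?_
    push_cast
    rw [mul_pow]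
    have g2 : (6 : ℝ) ^ 8 ≤ Y ^ (δ / 2) := by
      calc (6 : ℝ) ^ 8 = (((6 : ℝ) ^ 8) ^ (2 / δ)) ^ (δ / 2) := by
            rw [← Real.rpow_mul (by norm_num)]
            have : 2 / δ * (δ / 2) = 1 := by field_simp
            rw [this, Real.rpow_one]
        _ ≤ Y ^ (δ / 2) := Real.rpow_le_rpow (by positivity) hY (by positivity)
    have g3 : (t : ℝ) ^ 8 ≤ Y ^ (δ / 2) := by
      have g4 := pow_le_pow_left₀ (Nat.cast_nonneg t) htY 8
      refine g4.trans (le_of_eq ?_)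
      rw [← Real.rpow_natCast, ← Real.rpow_mul hY0.le]
      congr 1
      push_cast
      ring
    calc (6 : ℝ) ^ 8 * (t : ℝ) ^ 8 ≤ Y ^ (δ / 2) * Y ^ (δ / 2) :=
          mul_le_mul g2 g3 (by positivity) (by positivity)
      _ = Y ^ δ := by
          rw [← Real.rpow_add hY0]
          congr 1
          ring
  have h3 := h _ _ _ hT _ hdens Y hY1 hM2
  have h4 : ((Fam (T t) Y (Y ^ θ)).ncard : ℝ) ≤
      (Fam (fun x y => ∀ p ∈ (6 * t).primeFactors, FF p (t.factorization p) x y) Y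
        (Y ^ θ)).ncard :=
    fam_ncard_mono le_rfl le_rfl fun x y h0 hz p hp => (T_iff ht h0).1 hz p (hS p hp)
  refine h4.trans (h3.trans ?_)
  refine mul_le_mul_of_nonneg_right ?_ (Real.rpow_nonneg hY0.le _)
  have h5 := mul_le_mul_of_nonneg_left (dens_le ht) hC.le
  refine h5.trans (le_of_eq ?_)
  ring

end Pool.Agent.H460.EC
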